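import Mathlib
import Pool.Agent.Y334.FP.Glue

/-! Hyperbolic fibered polynomials over minimal bases: the basins are closed along the post-critical
set. -/

set_option autoImplicit false

open Filter Topology Metric Set Polynomial

namespace Pool.Agent.Y334.FN

open Pool.Agent.Y334.NA Pool.Agent.Y334.FP

/-- the fibre iterates of `(x, z) ↦ (T x, g x (z))` -/
noncomputable def fib {X : Type} (T : X → X) (g : X → ℂ[X]) : ℕ → X → ℂ → ℂ
  | 0, _, z => z
  | k + 1, x, z => (g (T^[k] x)).eval (fib T g k x z)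

/-- the post-critical set -/
def PCp {X : Type} (T : X → X) (g : X → ℂ[X]) : Set (X × ℂ) :=
  {p | ∃ y c k, 1 ≤ k ∧ (derivative (g y)).eval c = 0 ∧ p = (T^[k] y, fib T g k y c)}

/-- contraction of a small disc at one time -/
def Con {X : Type} (T : X → X) (g : X → ℂ[X]) (r C lam : ℝ) (x : X) (v : ℂ) (k : ℕ) : Prop :=
  ∀ z z', ‖z - v‖ < r → ‖z' - v‖ < r →
    ‖fib T g k x z - fib T g k x z'‖ ≤ C * lam ^ k * ‖z - z'‖

/-- contraction until escape near the closure of the post-critical set -/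
def HypP {X : Type} [TopologicalSpace X] (T : X → X) (g : X → ℂ[X]) (r C lam : ℝ) : Prop :=
  ∀ p ∈ closure (PCp T g), ∃ W ∈ 𝓝 p.1, ∀ x ∈ W,
    (∀ k, Con T g r C lam x p.2 k) ∨
    ∃ k₀, (∀ k < k₀, Con T g r C lam x p.2 k) ∧
      ∀ k z, ‖z - p.2‖ < r → 2 ^ k ≤ ‖fib T g (k₀ + k) x z‖

section

variable {X : Type} {T : X → X} {g : X → ℂ[X]}

theorem fib_eq (P : X → ℂ[X]) (s : X → ℂ) (k : ℕ) (x : X) (z : ℂ) :
    fib T (fun x => P x + C (s x)) k x z = fc T P s k x z := by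
  induction k with
  | zero => rfl
  | succ k ih =>
    show (P (T^[k] x) + C (s (T^[k] x))).eval (fib T (fun x => P x + C (s x)) k x z) = _
    rw [ih, fc_succ, eval_add, eval_C]

theorem hypP_of [TopologicalSpace X] {P : X → ℂ[X]} {s : X → ℂ} {r C lam : ℝ}
    (h : HypC T P s r C lam) : HypP T (fun x => P x + Polynomial.C (s x)) r C lam := by
  have hPC : PCp T (fun x => P x + Polynomial.C (s x)) = PCc T P s := by
    ext p
    constructor
    · rintro ⟨y, c, k, h1, h2, h3⟩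
      refine ⟨y, c, k, h1, by simpa using h2, ?_⟩
      rw [h3, fib_eq]
    · rintro ⟨y, c, k, h1, h2, h3⟩
      refine ⟨y, c, k, h1, by simpa using h2, ?_⟩
      rw [h3, fib_eq]
  intro p hp
  rw [hPC] at hp
  obtain ⟨W, hW, h1⟩ := h p hp
  refine ⟨W, hW, fun x hx => ?_⟩
  simp only [Con, fib_eq]
  exact h1 x hx

theorem fib_succ (k : ℕ) (x : X) (z : ℂ) :
    fib T g (k + 1) x z = (g (T^[k] x)).eval (fib T g k x z) := rfl

theorem fib_add (k m : ℕ) (x : X) (z : ℂ) :
    fib T g (m + k) x z = fib T g m (T^[k] x) (fib T g k x z) := by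
  induction m with
  | zero => rw [Nat.zero_add]; rfl
  | succ m ih =>
    have e : m + 1 + k = (m + k) + 1 := by ring
    rw [e, fib_succ, fib_succ, ih, Function.iterate_add_apply]

theorem fib_succ' (k : ℕ) (x : X) (z : ℂ) :
    fib T g (k + 1) x z = fib T g k (T x) ((g x).eval z) := by
  rw [fib_add]
  rfl

theorem eval_cont [TopologicalSpace X] {Y : Type} [TopologicalSpace Y] {d : ℕ}
    (hg : ∀ k, Continuous fun x => (g x).coeff k) (hd : ∀ x, (g x).natDegree ≤ d) {a : Y → X}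
    {b : Y → ℂ} (ha : Continuous a) (hb : Continuous b) :
    Continuous fun y => (g (a y)).eval (b y) := by
  have h2 : (fun y => (g (a y)).eval (b y)) =
      fun y => ∑ j ∈ Finset.range (d + 1), (g (a y)).coeff j * b y ^ j := by
    funext y
    exact eval_eq_sum_range' (by have := hd (a y); omega) _
  rw [h2]
  exact continuous_finsetSum _ fun j _ => ((hg j).comp ha).mul (hb.pow j)

theorem fib_cont [TopologicalSpace X] (hT : Continuous T) {d : ℕ}
    (hg : ∀ k, Continuous fun x => (g x).coeff k) (hd : ∀ x, (g x).natDegree ≤ d) (k : ℕ) :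
    Continuous fun p : X × ℂ => fib T g k p.1 p.2 := by
  induction k with
  | zero => exact continuous_snd
  | succ k ih => exact eval_cont hg hd ((hT.iterate k).comp continuous_fst) ih

/-- the basin of the disc of radius `1 / 2` -/
def Qs (T : X → X) (g : X → ℂ[X]) : Set (X × ℂ) := {p | ∃ k, ‖fib T g k p.1 p.2‖ < 1 / 2}

theorem Q_stay (hD : ∀ x z, ‖z‖ ≤ 1 / 2 → ‖(g x).eval z‖ ≤ 1 / 3) {x : X} {z : ℂ} {k : ℕ}
    (h : ‖fib T g k x z‖ < 1 / 2) (j : ℕ) : ‖fib T g (k + 1 + j) x z‖ ≤ 1 / 3 := by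
  induction j with
  | zero => exact hD _ _ h.le
  | succ j ih => exact hD _ _ (ih.trans (by norm_num))

theorem Q_step (hD : ∀ x z, ‖z‖ ≤ 1 / 2 → ‖(g x).eval z‖ ≤ 1 / 3) {x : X} {z : ℂ}
    (h : (x, z) ∈ Qs T g) : (T x, (g x).eval z) ∈ Qs T g := by
  obtain ⟨k, hk⟩ := h
  refine ⟨k, ?_⟩
  have h1 := Q_stay hD hk 0
  show ‖fib T g k (T x) ((g x).eval z)‖ < 1 / 2
  rw [← fib_succ']
  exact lt_of_le_of_lt h1 (by norm_num)

theorem Q_iter (hD : ∀ x z, ‖z‖ ≤ 1 / 2 → ‖(g x).eval z‖ ≤ 1 / 3) {x : X} {z : ℂ}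
    (h : (x, z) ∈ Qs T g) (m : ℕ) : (T^[m] x, fib T g m x z) ∈ Qs T g := by
  induction m with
  | zero => exact h
  | succ m ih =>
    rw [Function.iterate_succ_apply', fib_succ]
    exact Q_step hD ih

theorem fib_big {R : ℝ} (hR : 1 ≤ R) (hesc : ∀ x z, R ≤ ‖z‖ → 2 * ‖z‖ ≤ ‖(g x).eval z‖) {x : X}
    {z : ℂ} (hz : R ≤ ‖z‖) (k : ℕ) : 2 ^ k * ‖z‖ ≤ ‖fib T g k x z‖ := by
  induction k with
  | zero => simp [fib]
  | succ k ih =>
    have h1 : (1 : ℝ) ≤ 2 ^ k := one_le_pow₀ (by norm_num)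
    have h2 : R ≤ ‖fib T g k x z‖ := by nlinarith
    have h3 := hesc (T^[k] x) _ h2
    rw [fib_succ, pow_succ]
    linarith

/-- the bounded part of the post-critical closure outside the basin -/
def Ks [TopologicalSpace X] (T : X → X) (g : X → ℂ[X]) (R : ℝ) : Set (X × ℂ) :=
  {p | p ∈ closure (PCp T g) ∧ ∀ k, 1 / 2 ≤ ‖fib T g k p.1 p.2‖ ∧ ‖fib T g k p.1 p.2‖ ≤ R}

end

/-- **The basin is closed along the post-critical set.** -/
theorem disjoint_closure {X : Type} [TopologicalSpace X] [CompactSpace X] [T2Space X] {T : X → X}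
    (hT : Continuous T) (hmin : ∀ x : X, Dense (range fun k : ℕ => T^[k] x)) {g : X → ℂ[X]} {d : ℕ}
    (hg : ∀ k, Continuous fun x => (g x).coeff k) (hd : ∀ x, (g x).natDegree ≤ d) {R : ℝ}
    (hD : ∀ x z, ‖z‖ ≤ 1 / 2 → ‖(g x).eval z‖ ≤ 1 / 3) {r C lam : ℝ} (hr : 0 < r)
    (hl0 : 0 < lam) (hl1 : lam < 1) (hyp : HypP T g r C lam) :
    ∀ q ∈ Ks T g R, q ∉ closure (Qs T g) := by
  classical
  intro q₀ hq₀ hq₀c
  have hfc := fib_cont hT hg hd
  -- the dynamics
  set F : X × ℂ → X × ℂ := fun p => (T p.1, (g p.1).eval p.2) with hF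
  have hFc : Continuous F := (hT.comp continuous_fst).prodMk (hfc 1)
  have hPCF : ∀ p ∈ closure (PCp T g), F p ∈ closure (PCp T g) := by
    intro p hp
    have h1 := image_closure_subset_closure_image hFc (mem_image_of_mem F hp)
    refine closure_mono ?_ h1
    rintro _ ⟨_, ⟨y, c, k, hk, hc, rfl⟩, rfl⟩
    refine ⟨y, c, k + 1, by omega, hc, ?_⟩
    rw [Function.iterate_succ_apply', fib_succ]
  have hKF : ∀ p ∈ Ks T g R, F p ∈ Ks T g R := by
    rintro p ⟨h1, h2⟩
    refine ⟨hPCF p h1, fun k => ?_⟩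
    have h3 := h2 (k + 1)
    rw [fib_succ'] at h3
    exact h3
  have hKit : ∀ (x : X) (z : ℂ), (x, z) ∈ Ks T g R → ∀ m : ℕ, (T^[m] x, fib T g m x z) ∈ Ks T g R := by
    intro x z h m
    induction m with
    | zero => exact h
    | succ m ih =>
      rw [Function.iterate_succ_apply', fib_succ]
      exact hKF _ ih
  have hKcl : IsClosed (Ks T g R) := by
    have h1 : Ks T g R = closure (PCp T g) ∩ ⋂ k : ℕ, ({p : X × ℂ | 1 / 2 ≤ ‖fib T g k p.1 p.2‖} ∩
        {p : X × ℂ | ‖fib T g k p.1 p.2‖ ≤ R}) := by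
      ext p
      simp only [Ks, mem_setOf_eq, mem_inter_iff, mem_iInter]
    rw [h1]
    exact isClosed_closure.inter (isClosed_iInter fun k =>
      (isClosed_le continuous_const (hfc k).norm).inter (isClosed_le (hfc k).norm continuous_const))
  -- contraction in the fibres of `K`
  have hcon : ∀ (x : X) (v : ℂ), (x, v) ∈ Ks T g R → ∀ k, Con T g r C lam x v k := by
    intro x v hxv
    obtain ⟨W, hW, h1⟩ := hyp _ hxv.1
    rcases h1 x (mem_of_mem_nhds hW) with h2 | ⟨k₀, -, h2⟩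
    · exact h2
    · exfalso
      obtain ⟨k, hk⟩ := pow_unbounded_of_one_lt R (one_lt_two)
      have h3 := h2 k v (by rw [sub_self, norm_zero]; exact hr)
      have h4 := (hxv.2 (k₀ + k)).2
      linarith
  have hlim : ∀ a : ℝ, Tendsto (fun k : ℕ => C * lam ^ k * a) atTop (𝓝 0) := by
    intro a
    have h1 := (tendsto_pow_atTop_nhds_zero_of_lt_one hl0.le hl1).const_mul (C)
    have h2 := h1.mul_const a
    simpa using h2
  have hfact : ∀ (x : X) (v z : ℂ), (x, v) ∈ Ks T g R → ‖z - v‖ < r → (x, z) ∉ Qs T g := by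
    rintro x v z hxv hz ⟨k, hk⟩
    have hk' : ‖fib T g k x z‖ < 1 / 2 := hk
    obtain ⟨m, hm⟩ := eventually_atTop.1 ((hlim ‖z - v‖).eventually (gt_mem_nhds
      (show (0 : ℝ) < 1 / 6 by norm_num)))
    have h1 := hcon x v hxv (k + 1 + m) z v hz (by rw [sub_self, norm_zero]; exact hr)
    have h2 := hm (k + 1 + m) (by omega)
    have h3 := Q_stay hD hk' m
    have h4 := (hxv.2 (k + 1 + m)).1
    have h5 : ‖fib T g (k + 1 + m) x v‖ ≤ ‖fib T g (k + 1 + m) x z‖ +
        ‖fib T g (k + 1 + m) x z - fib T g (k + 1 + m) x v‖ := by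
      calc ‖fib T g (k + 1 + m) x v‖ = ‖fib T g (k + 1 + m) x z -
          (fib T g (k + 1 + m) x z - fib T g (k + 1 + m) x v)‖ := by congr 1; ring
        _ ≤ _ := norm_sub_le _ _
    have h4' : 1 / 2 ≤ ‖fib T g (k + 1 + m) x v‖ := h4
    linarith
  have hbox : ∀ (x : X) (z : ℂ), (x, z) ∈ Ks T g R → ‖z‖ ≤ R := fun x z h => (h.2 0).2
  -- separated families
  let Sep : ∀ N : ℕ, Set (X × (Fin N → ℂ)) := fun N =>
    {p | (∀ j, (p.1, p.2 j) ∈ Ks T g R) ∧ ∀ i j, i ≠ j → ∀ k : ℕ,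
      r ≤ ‖fib T g k p.1 (p.2 i) - fib T g k p.1 (p.2 j)‖}
  have hcoord : ∀ (N : ℕ) (j : Fin N) (k : ℕ),
      Continuous fun p : X × (Fin N → ℂ) => fib T g k p.1 (p.2 j) := fun N j k =>
    (hfc k).comp (continuous_fst.prodMk ((continuous_apply j).comp continuous_snd))
  have hSepcl : ∀ N, IsClosed (Sep N) := by
    intro N
    have h1 : Sep N = (⋂ j, (fun p : X × (Fin N → ℂ) => (p.1, p.2 j)) ⁻¹' Ks T g R) ∩
        ⋂ i, ⋂ j, ⋂ (_ : i ≠ j), ⋂ k : ℕ, {p : X × (Fin N → ℂ) |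
          r ≤ ‖fib T g k p.1 (p.2 i) - fib T g k p.1 (p.2 j)‖} := by
      ext p
      simp only [Sep, mem_setOf_eq, mem_inter_iff, mem_iInter, mem_preimage]
    rw [h1]
    refine (isClosed_iInter fun j => hKcl.preimage (continuous_fst.prodMk
      ((continuous_apply j).comp continuous_snd))).inter
      (isClosed_iInter fun i => isClosed_iInter fun j => isClosed_iInter fun _ =>
        isClosed_iInter fun k => isClosed_le continuous_const
          ((hcoord N i k).sub (hcoord N j k)).norm)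
  have hSepc : ∀ N, IsCompact (Sep N) := by
    intro N
    have h1 : IsCompact ((univ : Set X) ×ˢ (closedBall (0 : Fin N → ℂ) (max R 0))) :=
      isCompact_univ.prod (isCompact_closedBall _ _)
    apply h1.of_isClosed_subset (hSepcl N)
    rintro ⟨x, Z⟩ ⟨h2, -⟩
    refine ⟨mem_univ _, ?_⟩
    rw [mem_closedBall_zero_iff, pi_norm_le_iff_of_nonneg (le_max_right _ _)]
    exact fun j => (hbox x _ (h2 j)).trans (le_max_left _ _)
  let E : ℕ → Set X := fun N => Prod.fst '' Sep N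
  have hEcl : ∀ N, IsClosed (E N) := fun N => ((hSepc N).image continuous_fst).isClosed
  have hEinv : ∀ N, ∀ x ∈ E N, T x ∈ E N := by
    rintro N _ ⟨⟨x, Z⟩, ⟨h1, h2⟩, rfl⟩
    refine ⟨(T x, fun j => (g x).eval (Z j)), ⟨fun j => hKF _ (h1 j), fun i j hij k => ?_⟩, rfl⟩
    have h3 := h2 i j hij (k + 1)
    rw [fib_succ', fib_succ'] at h3
    exact h3
  have hEuniv : ∀ N, (E N).Nonempty → E N = univ := by
    rintro N ⟨x, hx⟩
    have h1 : ∀ k : ℕ, T^[k] x ∈ E N := by
      intro k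
      induction k with
      | zero => exact hx
      | succ k ih =>
        rw [Function.iterate_succ_apply']
        exact hEinv N _ ih
    have h2 : closure (range fun k : ℕ => T^[k] x) ⊆ E N :=
      (hEcl N).closure_subset_iff.2 (by rintro _ ⟨k, rfl⟩; exact h1 k)
    rw [(hmin x).closure_eq] at h2
    exact univ_subset_iff.1 h2
  -- a bound for the size of separated families
  obtain ⟨tc, -, htf, htc⟩ := Metric.finite_approx_of_totallyBounded
    (isCompact_closedBall (0 : ℂ) R).totallyBounded (r / 2) (by positivity)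
  have hEbd : ∀ N, (E N).Nonempty → N ≤ htf.toFinset.card := by
    rintro N ⟨_, ⟨⟨x, Z⟩, ⟨h1, h2⟩, rfl⟩⟩
    have h3 : ∀ j : Fin N, ∃ c ∈ htf.toFinset, dist (Z j) c < r / 2 := by
      intro j
      have h4 : Z j ∈ closedBall (0 : ℂ) R := by
        rw [mem_closedBall_zero_iff]
        exact hbox x _ (h1 j)
      obtain ⟨c, hc, h5⟩ := mem_iUnion₂.1 (htc h4)
      exact ⟨c, htf.mem_toFinset.2 hc, h5⟩
    choose c hc hcd using h3
    have hinj : Function.Injective c := by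
      intro i j hij
      by_contra hne
      have h4 : r ≤ ‖Z i - Z j‖ := h2 i j hne 0
      rw [← dist_eq_norm] at h4
      have h5 := dist_triangle_right (Z i) (Z j) (c i)
      have h6 := hcd i
      have h7 := hcd j
      rw [← hij] at h7
      linarith
    calc N = (Finset.univ : Finset (Fin N)).card := by simp
      _ = (Finset.univ.image c).card := (Finset.card_image_of_injective _ hinj).symm
      _ ≤ htf.toFinset.card := Finset.card_le_card fun y hy => by
          obtain ⟨j, -, rfl⟩ := Finset.mem_image.1 hy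
          exact hc j
  obtain ⟨N, hN1, hN2⟩ : ∃ N, (E N).Nonempty ∧ ¬ (E (N + 1)).Nonempty := by
    by_contra hcon'
    push Not at hcon'
    have h1 : ∀ N, (E N).Nonempty := by
      intro N
      induction N with
      | zero => exact ⟨q₀.1, ⟨(q₀.1, fun j => Fin.elim0 j), ⟨fun j => Fin.elim0 j,
          fun i => Fin.elim0 i⟩, rfl⟩⟩
      | succ N ih => exact hcon' N ih
    have := hEbd _ (h1 (htf.toFinset.card + 1))
    omega
  have hEN := hEuniv N hN1
  -- the closed set of triples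
  set Tr : Set ((X × ℂ) × (Fin N → ℂ)) := {p | (p.1.1, p.2) ∈ Sep N ∧ ‖p.1.2‖ ≤ R + 1 ∧
    ∀ (k : ℕ) (j : Fin N), r ≤ ‖fib T g k p.1.1 p.1.2 - fib T g k p.1.1 (p.2 j)‖} with hTr
  have hTrcl : IsClosed Tr := by
    have h1 : Tr = (fun p : (X × ℂ) × (Fin N → ℂ) => (p.1.1, p.2)) ⁻¹' Sep N ∩
        ({p : (X × ℂ) × (Fin N → ℂ) | ‖p.1.2‖ ≤ R + 1} ∩
        ⋂ k : ℕ, ⋂ j : Fin N, {p : (X × ℂ) × (Fin N → ℂ) |
          r ≤ ‖fib T g k p.1.1 p.1.2 - fib T g k p.1.1 (p.2 j)‖}) := by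
      ext p
      simp only [hTr, mem_setOf_eq, mem_inter_iff, mem_iInter, mem_preimage]
    rw [h1]
    have hc1 : Continuous fun p : (X × ℂ) × (Fin N → ℂ) => (p.1.1, p.2) :=
      (continuous_fst.comp continuous_fst).prodMk continuous_snd
    refine ((hSepcl N).preimage hc1).inter ((isClosed_le
      ((continuous_snd.comp continuous_fst).norm) continuous_const).inter
      (isClosed_iInter fun k => isClosed_iInter fun j => isClosed_le continuous_const ?_))
    exact (((hfc k).comp continuous_fst).sub ((hcoord N j k).comp hc1)).norm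
  have hTrc : IsCompact Tr := by
    have h1 : IsCompact (((univ : Set X) ×ˢ (closedBall (0 : ℂ) (R + 1))) ×ˢ
        (closedBall (0 : Fin N → ℂ) (max R 0))) :=
      (isCompact_univ.prod (isCompact_closedBall _ _)).prod (isCompact_closedBall _ _)
    apply h1.of_isClosed_subset hTrcl
    rintro ⟨⟨x, v⟩, Z⟩ ⟨⟨h2, -⟩, h3, -⟩
    refine ⟨⟨mem_univ _, ?_⟩, ?_⟩
    · rw [mem_closedBall_zero_iff]; exact h3
    · rw [mem_closedBall_zero_iff, pi_norm_le_iff_of_nonneg (le_max_right _ _)]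
      exact fun j => (hbox x _ (h2 j)).trans (le_max_left _ _)
  have himg : IsClosed (Prod.fst '' Tr) := (hTrc.image continuous_fst).isClosed
  have hQsub : Qs T g ∩ {p | ‖p.2‖ < R + 1} ⊆ Prod.fst '' Tr := by
    rintro ⟨x, v⟩ ⟨hxv, hv⟩
    have hxN : x ∈ E N := by rw [hEN]; exact mem_univ _
    obtain ⟨⟨x', Z⟩, hZ, hx'⟩ := hxN
    have hx'' : x' = x := hx'
    subst hx''
    refine ⟨((x', v), Z), ⟨hZ, le_of_lt hv, fun k j => ?_⟩, rfl⟩
    by_contra hcon'
    push Not at hcon'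
    exact hfact _ _ _ (hKit x' (Z j) (hZ.1 j) k) hcon' (Q_iter hD hxv k)
  have hq₀' : q₀ ∈ closure (Qs T g ∩ {p | ‖p.2‖ < R + 1}) := by
    have ho : IsOpen {p : X × ℂ | ‖p.2‖ < R + 1} :=
      isOpen_lt continuous_snd.norm continuous_const
    have hm : q₀ ∈ {p : X × ℂ | ‖p.2‖ < R + 1} := by
      show ‖q₀.2‖ < R + 1
      have := hbox q₀.1 q₀.2 hq₀
      linarith
    rw [mem_closure_iff_nhds] at hq₀c ⊢
    intro V hV
    obtain ⟨p, hp1, hp2⟩ := hq₀c (V ∩ {p | ‖p.2‖ < R + 1}) (inter_mem hV (ho.mem_nhds hm))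
    exact ⟨p, hp1.1, hp2, hp1.2⟩
  obtain ⟨⟨q₁, Z⟩, ⟨hZ1, -, hZ3⟩, hq₁⟩ := (himg.closure_subset_iff.2 hQsub) hq₀'
  have hq₁' : q₁ = q₀ := hq₁
  subst hq₁'
  apply hN2
  refine ⟨q₁.1, ⟨(q₁.1, Fin.cons q₁.2 Z), ⟨fun j => ?_, fun i j hij k => ?_⟩, rfl⟩⟩
  · refine Fin.cases ?_ (fun j => ?_) j
    · simp only [Fin.cons_zero]
      exact hq₀
    · simp only [Fin.cons_succ]
      exact hZ1.1 j
  · revert hij
    refine Fin.cases ?_ (fun i => ?_) i
    · refine Fin.cases ?_ (fun j => ?_) j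
      · intro h; exact absurd rfl h
      · intro _
        simp only [Fin.cons_zero, Fin.cons_succ]
        exact hZ3 k j
    · refine Fin.cases ?_ (fun j => ?_) j
      · intro _
        simp only [Fin.cons_zero, Fin.cons_succ]
        rw [norm_sub_rev]
        exact hZ3 k i
      · intro hij
        simp only [Fin.cons_succ]
        exact hZ1.2 i j (fun h => hij (by rw [h])) k

end Pool.Agent.Y334.FN
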