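import Mathlib
import Pool.Agent.Y334.FN.Inv

/-! Hyperbolic fibered polynomials over minimal bases: the fibres all of whose critical points lie in
the basin of the attracting disc form a set which is open and closed. -/

set_option autoImplicit false

open Filter Topology Metric Set Polynomial

namespace Pool.Agent.Y334.FN

open Pool.Agent.Y334.NA Pool.Agent.Y334.FP

/-- all the critical points of the fibre lie in the basin -/
def Gd {X : Type} (T : X → X) (g : X → ℂ[X]) : Set X :=
  {y | ∀ c, (derivative (g y)).eval c = 0 → (y, c) ∈ Qs T g}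

/-- critical points are bounded by the escape radius -/
theorem crit_bound {P : ℂ[X]} (hP : 2 ≤ P.natDegree) {R : ℝ} (hR : 1 ≤ R)
    (hesc : ∀ z, R ≤ ‖z‖ → 2 * ‖z‖ ≤ ‖P.eval z‖) {c : ℂ} (hc : (derivative P).eval c = 0) :
    ‖c‖ ≤ R := by
  have hd : 0 < P.degree := by
    rw [← natDegree_pos_iff_degree_pos]
    omega
  have hP0 : P ≠ 0 := by
    rintro rfl
    simp at hP
  have hD0 : derivative P ≠ 0 := by
    intro h
    have := derivative_eq_zero.1 h
    omega
  have h1 := rootSet_derivative_subset_convexHull_rootSet hd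
  have h2 : c ∈ (derivative P).rootSet ℂ := by
    rw [mem_rootSet]
    exact ⟨hD0, by simpa using hc⟩
  have h3 : P.rootSet ℂ ⊆ closedBall 0 R := by
    intro z hz
    rw [mem_rootSet] at hz
    rw [mem_closedBall_zero_iff]
    by_contra hcon
    push Not at hcon
    have h4 := hesc z hcon.le
    have h5 : P.eval z = 0 := by simpa using hz.2
    rw [h5, norm_zero] at h4
    linarith
  have h4 := convexHull_min h3 (convex_closedBall (0 : ℂ) R) (h1 h2)
  rwa [mem_closedBall_zero_iff] at h4

section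

variable {X : Type} [TopologicalSpace X] {T : X → X} {g : X → ℂ[X]}

theorem Qs_open (hT : Continuous T) {d : ℕ} (hg : ∀ k, Continuous fun x => (g x).coeff k)
    (hd : ∀ x, (g x).natDegree ≤ d) : IsOpen (Qs T g) := by
  have h1 : Qs T g = ⋃ k : ℕ, {p : X × ℂ | ‖fib T g k p.1 p.2‖ < 1 / 2} := by
    ext p
    simp only [Qs, mem_setOf_eq, mem_iUnion]
  rw [h1]
  exact isOpen_iUnion fun k => isOpen_lt (fib_cont hT hg hd k).norm continuous_const

/-- close coefficients nearby -/
theorem near_coeff (hg : ∀ k, Continuous fun x => (g x).coeff k) (d : ℕ) (x : X) {η : ℝ}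
    (hη : 0 < η) : ∀ᶠ y in 𝓝 x, ∀ j ≤ d, ‖(g x).coeff j - (g y).coeff j‖ ≤ η := by
  have h3 : ∀ᶠ y in 𝓝 x, ∀ k ∈ Finset.range (d + 1), ‖(g x).coeff k - (g y).coeff k‖ < η := by
    refine (Filter.eventually_all_finset _).2 fun k _ => ?_
    have g1 : Continuous fun y => ‖(g x).coeff k - (g y).coeff k‖ :=
      (continuous_const.sub (hg k)).norm
    exact g1.continuousAt.eventually_lt continuousAt_const (by simpa using hη)
  filter_upwards [h3] with y h4 j hj
  exact (h4 j (Finset.mem_range.2 (by omega))).le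

/-- **The good fibres form a clopen set.** -/
theorem good_clopen [CompactSpace X] [T2Space X] (hT : Continuous T)
    (hmin : ∀ x : X, Dense (range fun k : ℕ => T^[k] x)) {d : ℕ} {A : ℝ} (hA : 1 ≤ A)
    (hg : ∀ k, Continuous fun x => (g x).coeff k) (hB : ∀ x, Bd d A (g x)) {R : ℝ} (hR : 1 ≤ R)
    (hesc : ∀ x z, R ≤ ‖z‖ → 2 * ‖z‖ ≤ ‖(g x).eval z‖)
    (hD : ∀ x z, ‖z‖ ≤ 1 / 2 → ‖(g x).eval z‖ ≤ 1 / 3) {r C lam : ℝ} (hr : 0 < r)
    (hl0 : 0 < lam) (hl1 : lam < 1) (hyp : HypP T g r C lam) : IsClopen (Gd T g) := by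
  have hd : ∀ x, (g x).natDegree ≤ d := fun x => (hB x).2.1
  have hfc := fib_cont hT hg hd
  have hQo := Qs_open hT hg hd
  have hcb : ∀ x c, (derivative (g x)).eval c = 0 → ‖c‖ ≤ R := fun x c hc =>
    crit_bound (hB x).1 hR (hesc x) hc
  have hdc : Continuous fun p : X × ℂ => (derivative (g p.1)).eval p.2 := by
    refine eval_cont (g := fun x => derivative (g x)) (d := d) (fun k => ?_) (fun x => ?_)
      continuous_fst continuous_snd
    · simp only [coeff_derivative]
      exact (hg (k + 1)).mul continuous_const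
    · exact (natDegree_derivative_le _).trans (by have := hd x; omega)
  constructor
  · -- closed
    rw [← closure_subset_iff_isClosed]
    intro y hy c hc
    by_contra hcon
    -- the point is in the closure of the basin
    have hcl : (y, c) ∈ closure (Qs T g) := by
      rw [mem_closure_iff_nhds]
      intro V hV
      obtain ⟨V₁, hV₁, V₂, hV₂, hV12⟩ := mem_nhds_prod_iff.1 hV
      obtain ⟨κ, hκ, hκV⟩ := Metric.mem_nhds_iff.1 hV₂
      obtain ⟨η, hη, h1⟩ := close_crit d hA R hκ
      obtain ⟨y', hy', hy'G⟩ := mem_closure_iff_nhds.1 hy _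
        (inter_mem hV₁ (near_coeff hg d y hη))
      obtain ⟨c', hc', hcc⟩ := h1 _ _ (hB y) (hB y') hy'.2 c (hcb y c hc) hc
      refine ⟨(y', c'), hV12 ⟨hy'.1, hκV ?_⟩, hy'G c' hc'⟩
      rw [mem_ball, dist_comm, dist_eq_norm]
      exact hcc
    by_cases hesc' : ∃ k, R < ‖fib T g k y c‖
    · obtain ⟨k, hk⟩ := hesc'
      have ho : IsOpen {p : X × ℂ | R < ‖fib T g k p.1 p.2‖} :=
        isOpen_lt continuous_const (hfc k).norm
      obtain ⟨p, hp1, hp2⟩ := mem_closure_iff_nhds.1 hcl _ (ho.mem_nhds hk)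
      obtain ⟨j, hj⟩ := hp2
      have hj' : ‖fib T g j p.1 p.2‖ < 1 / 2 := hj
      have hp1' : R < ‖fib T g k p.1 p.2‖ := hp1
      rcases Nat.lt_or_ge j k with hjk | hjk
      · have h2 := Q_stay hD hj' (k - (j + 1))
        have e : j + 1 + (k - (j + 1)) = k := by omega
        rw [e] at h2
        linarith
      · have h2 := fib_big (T := T) hR hesc (x := T^[k] p.1) hp1'.le (j - k)
        rw [← fib_add] at h2
        have e : j - k + k = j := by omega
        rw [e] at h2
        have h3 : (1 : ℝ) ≤ 2 ^ (j - k) := one_le_pow₀ (by norm_num)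
        nlinarith
    · push Not at hesc'
      have hK : (T y, (g y).eval c) ∈ Ks T g R := by
        refine ⟨subset_closure ⟨y, c, 1, le_rfl, hc, rfl⟩, fun k => ?_⟩
        show 1 / 2 ≤ ‖fib T g k (T y) ((g y).eval c)‖ ∧ ‖fib T g k (T y) ((g y).eval c)‖ ≤ R
        rw [← fib_succ']
        refine ⟨?_, hesc' _⟩
        by_contra h2
        push Not at h2
        exact hcon ⟨k + 1, h2⟩
      refine disjoint_closure hT hmin hg hd hD hr hl0 hl1 hyp _ hK ?_
      have hF : Continuous fun p : X × ℂ => (T p.1, (g p.1).eval p.2) :=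
        (hT.comp continuous_fst).prodMk (eval_cont hg hd continuous_fst continuous_snd)
      have h1 := image_closure_subset_closure_image hF (mem_image_of_mem _ hcl)
      refine closure_mono ?_ h1
      rintro _ ⟨⟨x, z⟩, hxz, rfl⟩
      exact Q_step hD hxz
  · -- open
    have h1 : Gd T g = (Prod.fst '' (((univ : Set X) ×ˢ (closedBall (0 : ℂ) R)) ∩
        {p : X × ℂ | (derivative (g p.1)).eval p.2 = 0 ∧ p ∉ Qs T g}))ᶜ := by
      ext y
      constructor
      · rintro hy ⟨⟨y', c⟩, ⟨-, h2, h3⟩, rfl⟩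
        exact h3 (hy c h2)
      · intro hy c hc
        by_contra hcon
        exact hy ⟨(y, c), ⟨⟨mem_univ _, mem_closedBall_zero_iff.2 (hcb y c hc)⟩, hc, hcon⟩, rfl⟩
    rw [h1, isOpen_compl_iff]
    have h2 : IsCompact (((univ : Set X) ×ˢ (closedBall (0 : ℂ) R)) ∩
        {p : X × ℂ | (derivative (g p.1)).eval p.2 = 0 ∧ p ∉ Qs T g}) := by
      apply (isCompact_univ.prod (isCompact_closedBall _ _)).inter_right
      exact (isClosed_eq hdc continuous_const).inter hQo.isClosed_compl
    exact (h2.image continuous_fst).isClosed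

end

end Pool.Agent.Y334.FN
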