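import Mathlib
import Pool.Agent.Y334.FN.Clopen

/-! Over a minimal aperiodic base which is not totally disconnected there are fibered polynomials
none of whose small perturbations is hyperbolic. -/

set_option autoImplicit false

open Filter Topology Metric Set Polynomial

namespace Pool.Agent.Y334.FN

open Pool.Agent.Y334.NA Pool.Agent.Y334.FP

/-- the far polynomial -/
noncomputable def qf (d : ℕ) : ℂ[X] := C 2 * ((1 + C ((16 * (d : ℂ))⁻¹) * X) ^ d - 1)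

/-- the path of polynomials -/
noncomputable def hf (d : ℕ) (t : ℝ) : ℂ[X] := C ((1 - t : ℝ) : ℂ) * X ^ d + C (t : ℂ) * qf d

theorem qf_eval (d : ℕ) (z : ℂ) : (qf d).eval z = 2 * ((1 + (16 * (d : ℂ))⁻¹ * z) ^ d - 1) := by
  simp [qf]

theorem hf_eval (d : ℕ) (t : ℝ) (z : ℂ) :
    (hf d t).eval z = ((1 - t : ℝ) : ℂ) * z ^ d + (t : ℂ) * (qf d).eval z := by
  simp [hf]

theorem norm_pow_sub_one_le (w : ℂ) (d : ℕ) : ‖(1 + w) ^ d - 1‖ ≤ (1 + ‖w‖) ^ d - 1 := by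
  induction d with
  | zero => simp
  | succ d ih =>
    have h1 : (1 + w) ^ (d + 1) - 1 = (1 + w) * ((1 + w) ^ d - 1) + w := by ring
    have h2 : ‖1 + w‖ ≤ 1 + ‖w‖ := (norm_add_le _ _).trans (by simp)
    rw [h1]
    calc ‖(1 + w) * ((1 + w) ^ d - 1) + w‖ ≤ ‖(1 + w) * ((1 + w) ^ d - 1)‖ + ‖w‖ := norm_add_le _ _
      _ = ‖1 + w‖ * ‖(1 + w) ^ d - 1‖ + ‖w‖ := by rw [norm_mul]
      _ ≤ (1 + ‖w‖) * ((1 + ‖w‖) ^ d - 1) + ‖w‖ := by gcongr
      _ = (1 + ‖w‖) ^ (d + 1) - 1 := by ring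

theorem qf_small {d : ℕ} (hd : 2 ≤ d) {z : ℂ} (hz : ‖z‖ ≤ 1 / 2) : ‖(qf d).eval z‖ ≤ 1 / 4 := by
  have hd' : (2 : ℝ) ≤ d := by exact_mod_cast hd
  rw [qf_eval, norm_mul]
  set w : ℂ := (16 * (d : ℂ))⁻¹ * z with hw
  have h1 : ‖w‖ ≤ 1 / (32 * d) := by
    rw [hw, norm_mul, norm_inv, norm_mul, Complex.norm_natCast]
    have e16 : ‖(16 : ℂ)‖ = 16 := by norm_num
    rw [e16]
    calc (16 * (d : ℝ))⁻¹ * ‖z‖ ≤ (16 * (d : ℝ))⁻¹ * (1 / 2) := by gcongr
      _ = 1 / (32 * d) := by field_simp; norm_num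
  have h2 := norm_pow_sub_one_le w d
  have h3 : (1 + ‖w‖) ^ d ≤ Real.exp (1 / 32) := by
    have h4 : 1 + ‖w‖ ≤ Real.exp (1 / (32 * d)) := by
      have := Real.add_one_le_exp (1 / (32 * (d : ℝ)))
      linarith
    calc (1 + ‖w‖) ^ d ≤ Real.exp (1 / (32 * d)) ^ d := by gcongr
      _ = Real.exp (d * (1 / (32 * d))) := by rw [Real.exp_nat_mul]
      _ = Real.exp (1 / 32) := by congr 1; field_simp
  have h5 : Real.exp (1 / 32) ≤ 1 + 1 / 16 := by
    have h6 := Real.abs_exp_sub_one_sub_id_le (x := 1 / 32) (by norm_num [abs_of_pos])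
    have h7 := le_abs_self (Real.exp (1 / 32) - 1 - 1 / 32)
    norm_num at h6 h7 ⊢
    linarith
  have e2 : ‖(2 : ℂ)‖ = 2 := by norm_num
  rw [e2]
  linarith

theorem hf_small {d : ℕ} (hd : 2 ≤ d) {t : ℝ} (ht0 : 0 ≤ t) (ht1 : t ≤ 1) {z : ℂ}
    (hz : ‖z‖ ≤ 1 / 2) : ‖(hf d t).eval z‖ ≤ 1 / 4 := by
  rw [hf_eval]
  have h1 : ‖z ^ d‖ ≤ 1 / 4 := by
    rw [norm_pow]
    calc ‖z‖ ^ d ≤ ‖z‖ ^ 2 := pow_le_pow_of_le_one (norm_nonneg _) (by linarith) hd
      _ ≤ (1 / 2) ^ 2 := by gcongr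
      _ = 1 / 4 := by norm_num
  have h2 := qf_small hd hz
  calc ‖((1 - t : ℝ) : ℂ) * z ^ d + (t : ℂ) * (qf d).eval z‖
      ≤ ‖((1 - t : ℝ) : ℂ) * z ^ d‖ + ‖(t : ℂ) * (qf d).eval z‖ := norm_add_le _ _
    _ = (1 - t) * ‖z ^ d‖ + t * ‖(qf d).eval z‖ := by
        rw [norm_mul, norm_mul, Complex.norm_real, Complex.norm_real, Real.norm_eq_abs,
          Real.norm_eq_abs, abs_of_nonneg ht0, abs_of_nonneg (by linarith : (0 : ℝ) ≤ 1 - t)]
    _ ≤ (1 - t) * (1 / 4) + t * (1 / 4) := by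
        have : 0 ≤ 1 - t := by linarith
        gcongr
    _ = 1 / 4 := by ring

theorem qf_deg_le (d : ℕ) : (qf d).natDegree ≤ d := by
  unfold qf
  compute_degree!

theorem qf_coeff (d : ℕ) (hd : 2 ≤ d) : (qf d).coeff d = 2 * ((16 * (d : ℂ))⁻¹) ^ d := by
  unfold qf
  rw [coeff_C_mul, coeff_sub]
  have h1 : (1 : ℂ[X]).coeff d = 0 := by
    rw [coeff_one, if_neg (by omega)]
  have h2 : ((1 + C ((16 * (d : ℂ))⁻¹) * X) ^ d).coeff d = ((16 * (d : ℂ))⁻¹) ^ d := by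
    have h3 : (1 + C ((16 * (d : ℂ))⁻¹) * X : ℂ[X]).natDegree ≤ 1 := by compute_degree!
    have h4 := coeff_pow_of_natDegree_le h3 (m := d)
    rw [mul_one] at h4
    rw [h4]
    congr 1
    simp [coeff_one]
  rw [h1, h2, sub_zero]

theorem hf_deg_le (d : ℕ) (t : ℝ) : (hf d t).natDegree ≤ d := by
  unfold hf
  have h1 := qf_deg_le d
  refine (natDegree_add_le _ _).trans (max_le ?_ ?_)
  · exact (natDegree_C_mul_le _ _).trans (natDegree_X_pow_le _)
  · exact (natDegree_C_mul_le _ _).trans h1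

theorem hf_coeff (d : ℕ) (t : ℝ) (j : ℕ) :
    (hf d t).coeff j = ((1 - t : ℝ) : ℂ) * (X ^ d : ℂ[X]).coeff j + (t : ℂ) * (qf d).coeff j := by
  unfold hf
  rw [coeff_add, coeff_C_mul, coeff_C_mul]

theorem hf_lead {d : ℕ} (hd : 2 ≤ d) {t : ℝ} (ht0 : 0 ≤ t) (ht1 : t ≤ 1) :
    1 / (16 * (d : ℝ)) ^ d ≤ ‖(hf d t).coeff d‖ := by
  have hd' : (2 : ℝ) ≤ d := by exact_mod_cast hd
  rw [hf_coeff, qf_coeff d hd, coeff_X_pow, if_pos rfl]
  have h1 : ((1 - t : ℝ) : ℂ) * 1 + (t : ℂ) * (2 * ((16 * (d : ℂ))⁻¹) ^ d) =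
      (((1 - t) + t * (2 * ((16 * (d : ℝ))⁻¹) ^ d) : ℝ) : ℂ) := by
    push_cast
    ring
  rw [h1, Complex.norm_real, Real.norm_eq_abs]
  set b : ℝ := ((16 * (d : ℝ))⁻¹) ^ d with hb
  have hb0 : 0 < b := by positivity
  have hb1 : b ≤ 1 := by
    rw [hb]
    apply pow_le_one₀ (by positivity)
    apply inv_le_one_of_one_le₀
    nlinarith
  have h2 : 1 / (16 * (d : ℝ)) ^ d = b := by
    rw [hb, inv_pow, one_div]
  rw [h2]
  refine le_trans ?_ (le_abs_self _)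
  nlinarith

theorem hf_zero_deriv (d : ℕ) (z : ℂ) :
    (derivative (hf d 0)).eval z = d * z ^ (d - 1) := by
  have h5 : derivative (hf d 0) = C (d : ℂ) * X ^ (d - 1) := by
    simp [hf, derivative_X_pow]
  rw [h5]
  simp

theorem hf_one_deriv (d : ℕ) (z : ℂ) :
    (derivative (hf d 1)).eval z =
      2 * (d * (1 + (16 * (d : ℂ))⁻¹ * z) ^ (d - 1) * (16 * (d : ℂ))⁻¹) := by
  have h5 : derivative (hf d 1) = C 2 * (C (d : ℂ) *
      (1 + C ((16 * (d : ℂ))⁻¹) * X) ^ (d - 1) * C ((16 * (d : ℂ))⁻¹)) := by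
    simp [hf, qf, derivative_pow]
  rw [h5]
  simp only [eval_mul, eval_C, eval_pow, eval_add, eval_one, eval_X]

theorem norm_coeff_X_pow (d j : ℕ) : ‖(X ^ d : ℂ[X]).coeff j‖ ≤ 1 := by
  rw [coeff_X_pow]
  split_ifs <;> simp

theorem restrict_iter {X : Type} {T : X → X} {Y : Set X} (hY : MapsTo T Y Y) (k : ℕ) (y : Y) :
    (((hY.restrict T Y Y)^[k] y : Y) : X) = T^[k] y := by
  induction k with
  | zero => rfl
  | succ k ih =>
    rw [Function.iterate_succ_apply', Function.iterate_succ_apply', ← ih]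
    rfl

theorem fib_restrict {X : Type} {T : X → X} {Y : Set X} (hY : MapsTo T Y Y) (g : X → ℂ[X])
    (k : ℕ) (y : Y) (z : ℂ) :
    fib (hY.restrict T Y Y) (fun y : Y => g y) k y z = fib T g k y z := by
  induction k with
  | zero => rfl
  | succ k ih => rw [fib_succ, fib_succ, ih, restrict_iter]

theorem hypP_restrict {X : Type} [TopologicalSpace X] {T : X → X} {Y : Set X} (hY : MapsTo T Y Y)
    {g : X → ℂ[X]} {r C lam : ℝ} (h : HypP T g r C lam) :
    HypP (hY.restrict T Y Y) (fun y : Y => g y) r C lam := by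
  intro p hp
  have hcont : Continuous fun q : Y × ℂ => ((q.1 : X), q.2) :=
    (continuous_subtype_val.comp continuous_fst).prodMk continuous_snd
  have hp' : ((p.1 : X), p.2) ∈ closure (PCp T g) := by
    have h3 := image_closure_subset_closure_image hcont (mem_image_of_mem _ hp)
    refine closure_mono ?_ h3
    rintro _ ⟨q, ⟨y, c, k, hk, hc, rfl⟩, rfl⟩
    refine ⟨y, c, k, hk, hc, ?_⟩
    simp only [restrict_iter, fib_restrict]
  obtain ⟨W, hW, h3⟩ := h _ hp'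
  refine ⟨Subtype.val ⁻¹' W, continuous_subtype_val.continuousAt.preimage_mem_nhds hW,
    fun x hx => ?_⟩
  have h4 := h3 _ hx
  simp only [Con, fib_restrict] at h4 ⊢
  exact h4

theorem Gd_restrict {X : Type} {T : X → X} {Y : Set X} (hY : MapsTo T Y Y) (g : X → ℂ[X]) (y : Y) :
    y ∈ Gd (hY.restrict T Y Y) (fun y : Y => g y) ↔ (y : X) ∈ Gd T g := by
  constructor
  · intro h c hc
    obtain ⟨k, hk⟩ := h c hc
    refine ⟨k, ?_⟩
    rw [fib_restrict] at hk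
    exact hk
  · intro h c hc
    obtain ⟨k, hk⟩ := h c hc
    refine ⟨k, ?_⟩
    rw [fib_restrict]
    exact hk

theorem dense_restrict {X : Type} [TopologicalSpace X] {T : X → X} {Y : Set X} (hY : MapsTo T Y Y)
    (hmin : ∀ x ∈ Y, Y ⊆ closure (range fun k : ℕ => T^[k] x)) (x : Y) :
    Dense (range fun k : ℕ => (hY.restrict T Y Y)^[k] x) := by
  rw [Subtype.dense_iff]
  have h1 : Subtype.val '' range (fun k : ℕ => (hY.restrict T Y Y)^[k] x) =
      range fun k : ℕ => T^[k] (x : X) := by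
    rw [← range_comp]
    congr 1
    funext k
    exact restrict_iter hY k x
  rw [h1]
  exact hmin x x.2

theorem good_on {X : Type} [TopologicalSpace X] [CompactSpace X] [T2Space X] {T : X → X}
    (hT : Continuous T) {Y : Set X} (hYc : IsClosed Y) (hY : MapsTo T Y Y)
    (hmin : ∀ x ∈ Y, Y ⊆ closure (range fun k : ℕ => T^[k] x)) {g : X → ℂ[X]} {d : ℕ} {A : ℝ}
    (hA : 1 ≤ A) (hg : ∀ k, Continuous fun x => (g x).coeff k) (hB : ∀ x, Bd d A (g x)) {R : ℝ}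
    (hR : 1 ≤ R) (hesc : ∀ x z, R ≤ ‖z‖ → 2 * ‖z‖ ≤ ‖(g x).eval z‖)
    (hD : ∀ x z, ‖z‖ ≤ 1 / 2 → ‖(g x).eval z‖ ≤ 1 / 3) {r C lam : ℝ} (hr : 0 < r)
    (hl0 : 0 < lam) (hl1 : lam < 1) (hyp : HypP T g r C lam) {s : Set X} (hsY : s ⊆ Y)
    (hs : IsPreconnected s) {x₀ x₁ : X} (hx₀ : x₀ ∈ s) (hx₀G : x₀ ∈ Gd T g) (hx₁ : x₁ ∈ s) :
    x₁ ∈ Gd T g := by
  have hYcpt : CompactSpace Y := isCompact_iff_compactSpace.1 hYc.isCompact
  have hclopen : IsClopen (Gd (hY.restrict T Y Y) (fun y : Y => g y)) :=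
    good_clopen (hT.restrict hY) (dense_restrict hY hmin) hA
      (fun k => (hg k).comp continuous_subtype_val) (fun y => hB y) hR
      (fun y => hesc y) (fun y => hD y) hr hl0 hl1 (hypP_restrict hY hyp)
  have hs' : IsPreconnected (Subtype.val ⁻¹' s : Set Y) := by
    rw [← Topology.IsInducing.subtypeVal.isPreconnected_image,
      Subtype.image_preimage_coe, inter_eq_right.2 hsY]
    exact hs
  have h9 := hs'.subset_isClopen hclopen
    ⟨⟨x₀, hsY hx₀⟩, hx₀, (Gd_restrict hY g ⟨x₀, hsY hx₀⟩).2 hx₀G⟩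
    (show (⟨x₁, hsY hx₁⟩ : Y) ∈ Subtype.val ⁻¹' s from hx₁)
  exact (Gd_restrict hY g ⟨x₁, hsY hx₁⟩).1 h9

theorem aper_on {X : Type} [TopologicalSpace X] [T1Space X] {T : X → X} {Y : Set X}
    (hmin : ∀ x ∈ Y, Y ⊆ closure (range fun k : ℕ => T^[k] x)) (hinf : Y.Infinite) {x : X}
    (hx : x ∈ Y) (k : ℕ) (hk : 1 ≤ k) : T^[k] x ≠ x := by
  intro h
  have hf : (range fun k : ℕ => T^[k] x).Finite := by
    have h1 : range (fun k : ℕ => T^[k] x) ⊆ (fun j => T^[j] x) '' (Finset.range k : Set ℕ) := by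
      rintro _ ⟨j, rfl⟩
      refine ⟨j % k, Finset.mem_coe.2 (Finset.mem_range.2 (Nat.mod_lt _ (by omega))), ?_⟩
      have h2 : Function.IsPeriodicPt T k x := h
      exact (h2.iterate_mod_apply j)
    exact ((Finset.finite_toSet _).image _).subset h1
  have h1 := hf.isClosed.closure_eq
  exact hinf (hf.subset (by rw [← h1]; exact hmin x hx))

/-- **The robust example.** -/
theorem robust {X : Type} [TopologicalSpace X] [CompactSpace X] [T2Space X] {T : X → X}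
    (hT : Continuous T) {Y : Set X} (hYc : IsClosed Y) (hY : MapsTo T Y Y)
    (hmin : ∀ x ∈ Y, Y ⊆ closure (range fun k : ℕ => T^[k] x)) (hinf : Y.Infinite)
    (htd : ¬ IsTotallyDisconnected Y) {d : ℕ} (hd : 2 ≤ d) :
    ∃ (g : X → ℂ[X]) (δ : ℝ), 0 < δ ∧ (∀ k, Continuous fun x => (g x).coeff k) ∧
      (∀ x, (g x).natDegree = d) ∧ ∀ g' : X → ℂ[X], (∀ k, Continuous fun x => (g' x).coeff k) →
      (∀ x, (g' x).natDegree = d) → (∀ x j, ‖(g' x).coeff j - (g x).coeff j‖ < δ) →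
      ∀ r C lam : ℝ, 0 < r → 0 < lam → lam < 1 → ¬ HypP T g' r C lam := by
  have hd' : (2 : ℝ) ≤ d := by exact_mod_cast hd
  -- two points of a connected set
  obtain ⟨s, hsY, hs, x₀, hx₀, x₁, hx₁, hne⟩ : ∃ s ⊆ Y, IsPreconnected s ∧ ∃ x₀ ∈ s, ∃ x₁ ∈ s,
      x₀ ≠ x₁ := by
    by_contra hcon
    push Not at hcon
    exact htd fun t hty ht x hx y hy => hcon t hty ht x hx y hy
  have hap := fun k hk => aper_on hmin hinf (hsY hx₁) k hk
  -- constants
  set B : ℝ := 16 * d with hB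
  have hB32 : 32 ≤ B := by rw [hB]; linarith
  have hBd : 1 ≤ B ^ d := one_le_pow₀ (by linarith)
  set A₀ : ℝ := 1 + ∑ j ∈ Finset.range (d + 1), ‖(qf d).coeff j‖ + B ^ d with hA₀
  have hsum0 : 0 ≤ ∑ j ∈ Finset.range (d + 1), ‖(qf d).coeff j‖ :=
    Finset.sum_nonneg fun j _ => norm_nonneg _
  have hA₀1 : 1 ≤ A₀ := by linarith
  have hA₀0 : 0 < A₀ := by linarith
  have hcoef : ∀ t : ℝ, 0 ≤ t → t ≤ 1 → ∀ j, ‖(hf d t).coeff j‖ ≤ A₀ := by
    intro t ht0 ht1 j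
    rcases Nat.lt_or_ge d j with hj | hj
    · rw [coeff_eq_zero_of_natDegree_lt ((hf_deg_le d t).trans_lt hj), norm_zero]
      exact hA₀0.le
    · rw [hf_coeff]
      have h1 := norm_coeff_X_pow d j
      have h2 : ‖(qf d).coeff j‖ ≤ ∑ j ∈ Finset.range (d + 1), ‖(qf d).coeff j‖ :=
        Finset.single_le_sum (f := fun j => ‖(qf d).coeff j‖) (fun _ _ => norm_nonneg _)
          (Finset.mem_range.2 (by omega))
      calc ‖((1 - t : ℝ) : ℂ) * (Polynomial.X ^ d : ℂ[X]).coeff j + (t : ℂ) * (qf d).coeff j‖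
          ≤ ‖((1 - t : ℝ) : ℂ) * (Polynomial.X ^ d : ℂ[X]).coeff j‖ +
            ‖(t : ℂ) * (qf d).coeff j‖ := norm_add_le _ _
        _ = (1 - t) * ‖(Polynomial.X ^ d : ℂ[X]).coeff j‖ + t * ‖(qf d).coeff j‖ := by
            rw [norm_mul, norm_mul, Complex.norm_real, Complex.norm_real, Real.norm_eq_abs,
              Real.norm_eq_abs, abs_of_nonneg ht0, abs_of_nonneg (by linarith : (0 : ℝ) ≤ 1 - t)]
        _ ≤ 1 * 1 + 1 * ∑ j ∈ Finset.range (d + 1), ‖(qf d).coeff j‖ := by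
            have : 0 ≤ 1 - t := by linarith
            gcongr
            linarith
        _ ≤ A₀ := by linarith
  have hlead : ∀ t : ℝ, 0 ≤ t → t ≤ 1 → 1 / A₀ ≤ ‖(hf d t).coeff d‖ := by
    intro t ht0 ht1
    refine le_trans ?_ (hf_lead hd ht0 ht1)
    apply one_div_le_one_div_of_le (by positivity)
    linarith
  have hdeg : ∀ t : ℝ, 0 ≤ t → t ≤ 1 → (hf d t).natDegree = d := by
    intro t ht0 ht1
    apply le_antisymm (hf_deg_le d t)
    apply le_natDegree_of_ne_zero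
    intro h
    have h1 := hlead t ht0 ht1
    rw [h, norm_zero] at h1
    have : 0 < 1 / A₀ := by positivity
    linarith
  set A : ℝ := 2 * A₀ with hAdef
  have hA : 1 ≤ A := by linarith
  have hBdh : ∀ t : ℝ, 0 ≤ t → t ≤ 1 → Bd d A (hf d t) := by
    intro t ht0 ht1
    refine ⟨by rw [hdeg t ht0 ht1]; exact hd, (hdeg t ht0 ht1).le,
      fun j => (hcoef t ht0 ht1 j).trans (by linarith), ?_⟩
    rw [leadingCoeff, hdeg t ht0 ht1]
    refine le_trans ?_ (hlead t ht0 ht1)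
    apply one_div_le_one_div_of_le hA₀0
    linarith
  obtain ⟨R, Λ, hR, -, hdat⟩ := dat_of_bounded d hA one_pos le_rfl
  have hescP : ∀ P : ℂ[X], Bd d A P → ∀ z : ℂ, R ≤ ‖z‖ → 2 * ‖z‖ ≤ ‖P.eval z‖ := by
    intro P hP z hz
    have h1 := (hdat (fun _ => P) (fun _ => hP)).esc 0 z 0 hz (by simp)
    simpa using h1
  obtain ⟨Mc, hMc, hclose⟩ := close_bounded d (R + B + 2)
  obtain ⟨L, hL, hlip⟩ := lip_bounded d (by linarith : 0 ≤ A) (R + B + 2)
  set κ : ℝ := 1 / (4 * L) with hκ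
  have hκ0 : 0 < κ := by positivity
  have hκ1 : κ ≤ 1 / 8 := by
    rw [hκ]
    apply one_div_le_one_div_of_le <;> linarith
  obtain ⟨η₁, hη₁, hcrit₁⟩ := close_crit d hA (R + B + 2) hκ0
  set δ : ℝ := min (min η₁ (1 / (16 * Mc))) (1 / (2 * A₀)) with hδ
  have hδ0 : 0 < δ := by positivity
  have hδ1 : δ ≤ η₁ := (min_le_left _ _).trans (min_le_left _ _)
  have hδ2 : δ ≤ 1 / (16 * Mc) := (min_le_left _ _).trans (min_le_right _ _)
  have hδ3 : δ ≤ 1 / (2 * A₀) := min_le_right _ _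
  have hδ4 : Mc * δ ≤ 1 / 16 := by
    calc Mc * δ ≤ Mc * (1 / (16 * Mc)) := by gcongr
      _ = 1 / 16 := by field_simp
  -- the number of steps
  obtain ⟨m, hm⟩ := pow_unbounded_of_one_lt R (show (1 : ℝ) < 5 / 4 by norm_num)
  -- the base function
  set Z : Set X := insert x₀ ((fun k => T^[k] x₁) '' (Finset.Icc 1 m : Finset ℕ)) with hZ
  have hZf : Z.Finite := ((Finset.finite_toSet _).image _).insert _
  have hdis : Disjoint Z {x₁} := by
    rw [Set.disjoint_singleton_right, hZ, mem_insert_iff]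
    rintro (h | ⟨k, hk, h⟩)
    · exact hne h.symm
    · have hk' := Finset.mem_Icc.1 (Finset.mem_coe.1 hk)
      exact hap k hk'.1 h
  obtain ⟨τ, hτ0, hτ1, hτ⟩ := exists_continuous_zero_one_of_isClosed hZf.isClosed
    (isClosed_singleton (x := x₁)) hdis
  have hτx₁ : τ x₁ = 1 := hτ1 (mem_singleton _)
  have hτx₀ : τ x₀ = 0 := hτ0 (mem_insert _ _)
  have hτk : ∀ k, 1 ≤ k → k ≤ m → τ (T^[k] x₁) = 0 := fun k h1 h2 =>
    hτ0 (mem_insert_of_mem _ ⟨k, Finset.mem_coe.2 (Finset.mem_Icc.2 ⟨h1, h2⟩), rfl⟩)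
  refine ⟨fun x => hf d (τ x), δ, hδ0, ?_, fun x => hdeg _ (hτ x).1 (hτ x).2, ?_⟩
  · intro k
    simp only [hf_coeff]
    have h1 : Continuous fun x => ((1 - τ x : ℝ) : ℂ) :=
      Complex.continuous_ofReal.comp (continuous_const.sub τ.continuous)
    have h2 : Continuous fun x => ((τ x : ℝ) : ℂ) := Complex.continuous_ofReal.comp τ.continuous
    exact (h1.mul continuous_const).add (h2.mul continuous_const)
  intro g' hg' hdeg' hclo r C lam hr hl0 hl1 hyp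
  have hBg : ∀ x, Bd d A (g' x) := by
    intro x
    refine ⟨by rw [hdeg' x]; exact hd, (hdeg' x).le, fun j => ?_, ?_⟩
    · have h1 := hcoef _ (hτ x).1 (hτ x).2 j
      have h2 := (hclo x j).le
      have h3 : δ ≤ 1 := hδ3.trans (by rw [div_le_one (by positivity)]; linarith)
      calc ‖(g' x).coeff j‖ = ‖((g' x).coeff j - (hf d (τ x)).coeff j) + (hf d (τ x)).coeff j‖ := by
            congr 1; ring
        _ ≤ _ := norm_add_le _ _
        _ ≤ A := by linarith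
    · rw [leadingCoeff, hdeg' x]
      have h1 := hlead _ (hτ x).1 (hτ x).2
      have h2 := (hclo x d).le
      have h3 : ‖(hf d (τ x)).coeff d‖ ≤ ‖(g' x).coeff d‖ +
          ‖(g' x).coeff d - (hf d (τ x)).coeff d‖ := by
        calc ‖(hf d (τ x)).coeff d‖ = ‖(g' x).coeff d - ((g' x).coeff d -
              (hf d (τ x)).coeff d)‖ := by congr 1; ring
          _ ≤ _ := norm_sub_le _ _
      have h4 : 1 / A₀ = 1 / A + 1 / (2 * A₀) := by
        rw [hAdef]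
        field_simp
        norm_num
      linarith
  have hesc : ∀ x z, R ≤ ‖z‖ → 2 * ‖z‖ ≤ ‖(g' x).eval z‖ := fun x => hescP _ (hBg x)
  have hval : ∀ x z, ‖z‖ ≤ R + B + 2 → ‖(g' x).eval z - (hf d (τ x)).eval z‖ ≤ 1 / 16 := by
    intro x z hz
    exact (hclose _ _ (hdeg' x).le (hf_deg_le _ _) δ hδ0.le (fun j _ => (hclo x j).le) z hz).trans
      hδ4
  have hD : ∀ x z, ‖z‖ ≤ 1 / 2 → ‖(g' x).eval z‖ ≤ 1 / 3 := by
    intro x z hz
    have h1 := hval x z (by linarith)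
    have h2 := hf_small hd (hτ x).1 (hτ x).2 hz
    calc ‖(g' x).eval z‖ = ‖((g' x).eval z - (hf d (τ x)).eval z) + (hf d (τ x)).eval z‖ := by
          congr 1; ring
      _ ≤ _ := norm_add_le _ _
      _ ≤ 1 / 3 := by linarith
  -- the first point is good
  have hx₀G : x₀ ∈ Gd T g' := by
    intro c hc
    have h1 := crit_bound (hBg x₀).1 hR (hesc x₀) hc
    obtain ⟨c', h2, h3⟩ := hcrit₁ _ _ (hBg x₀) (hBdh _ (hτ x₀).1 (hτ x₀).2)
      (fun j _ => ((hclo x₀ j).le.trans hδ1)) c (by linarith) hc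
    rw [hτx₀] at h2
    have h4 : c' = 0 := by
      rw [hf_zero_deriv, mul_eq_zero, Nat.cast_eq_zero] at h2
      rcases h2 with h2 | h2
      · omega
      · exact eq_zero_of_pow_eq_zero h2
    rw [h4, sub_zero] at h3
    refine ⟨0, ?_⟩
    show ‖c‖ < 1 / 2
    linarith
  -- the second one is not
  have hx₁G : x₁ ∉ Gd T g' := by
    intro hG
    have hcB : (derivative (hf d (τ x₁))).eval (-(B : ℂ)) = 0 := by
      rw [hτx₁]
      have h6 : 1 + (16 * (d : ℂ))⁻¹ * (-(B : ℂ)) = 0 := by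
        rw [hB]
        push_cast
        have : (d : ℂ) ≠ 0 := by
          have : d ≠ 0 := by omega
          exact_mod_cast this
        field_simp
        ring
      rw [hf_one_deriv, h6, zero_pow (by omega)]
      ring
    have hvB : (hf d (τ x₁)).eval (-(B : ℂ)) = -2 := by
      rw [hτx₁, hf_eval, qf_eval]
      have h6 : 1 + (16 * (d : ℂ))⁻¹ * (-(B : ℂ)) = 0 := by
        rw [hB]
        push_cast
        have : (d : ℂ) ≠ 0 := by
          have : d ≠ 0 := by omega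
          exact_mod_cast this
        field_simp
        ring
      rw [h6, zero_pow (by omega)]
      norm_num
    have hnB : ‖(-(B : ℂ))‖ = B := by
      rw [norm_neg, Complex.norm_real, Real.norm_eq_abs, abs_of_nonneg (by linarith)]
    obtain ⟨c', h2, h3⟩ := hcrit₁ _ _ (hBdh _ (hτ x₁).1 (hτ x₁).2) (hBg x₁)
      (fun j _ => by rw [norm_sub_rev]; exact ((hclo x₁ j).le.trans hδ1)) (-(B : ℂ))
      (by rw [hnB]; linarith) hcB
    have hc'1 : ‖c'‖ ≤ B + 1 := by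
      calc ‖c'‖ = ‖(-(B : ℂ)) - (-(B : ℂ) - c')‖ := by congr 1; ring
        _ ≤ ‖(-(B : ℂ))‖ + ‖-(B : ℂ) - c'‖ := norm_sub_le _ _
        _ ≤ B + 1 := by rw [hnB]; linarith
    have hc'2 : B - 1 ≤ ‖c'‖ := by
      have h4 : ‖(-(B : ℂ))‖ ≤ ‖c'‖ + ‖-(B : ℂ) - c'‖ := by
        calc ‖(-(B : ℂ))‖ = ‖c' + (-(B : ℂ) - c')‖ := by congr 1; ring
          _ ≤ _ := norm_add_le _ _
      rw [hnB] at h4
      linarith
    -- the value
    have hv : 3 / 2 ≤ ‖(g' x₁).eval c'‖ := by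
      have h4 := hval x₁ c' (by linarith)
      have h5 := hlip _ (hdeg _ (hτ x₁).1 (hτ x₁).2).le (hBdh _ (hτ x₁).1 (hτ x₁).2).2.2.1
        (-(B : ℂ)) c' (by rw [hnB]; linarith) (by linarith)
      rw [hvB] at h5
      have h6 : L * ‖-(B : ℂ) - c'‖ ≤ 1 / 4 := by
        calc L * ‖-(B : ℂ) - c'‖ ≤ L * κ := by gcongr
          _ = 1 / 4 := by rw [hκ]; field_simp
      have h7 : ‖(-2 : ℂ)‖ ≤ ‖(g' x₁).eval c'‖ + ‖(g' x₁).eval c' - (hf d (τ x₁)).eval c'‖ +
          ‖(-2 : ℂ) - (hf d (τ x₁)).eval c'‖ := by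
        calc ‖(-2 : ℂ)‖ = ‖(g' x₁).eval c' - ((g' x₁).eval c' - (hf d (τ x₁)).eval c') +
              ((-2 : ℂ) - (hf d (τ x₁)).eval c')‖ := by congr 1; ring
          _ ≤ ‖(g' x₁).eval c' - ((g' x₁).eval c' - (hf d (τ x₁)).eval c')‖ +
              ‖(-2 : ℂ) - (hf d (τ x₁)).eval c'‖ := norm_add_le _ _
          _ ≤ _ := by
              gcongr
              exact norm_sub_le _ _
      have e2 : ‖(-2 : ℂ)‖ = 2 := by norm_num
      rw [e2] at h7
      linarith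
    -- one step of growth
    have hgrow : ∀ k, 1 ≤ k → k ≤ m → ∀ z : ℂ, 3 / 2 ≤ ‖z‖ →
        5 / 4 * ‖z‖ ≤ ‖(g' (T^[k] x₁)).eval z‖ := by
      intro k hk1 hk2 z hz
      rcases le_or_gt R ‖z‖ with hzR | hzR
      · have := hesc (T^[k] x₁) z hzR
        linarith
      · have h4 := hval (T^[k] x₁) z (by linarith)
        have h5 : (hf d (τ (T^[k] x₁))).eval z = z ^ d := by
          rw [hτk k hk1 hk2, hf_eval]
          simp
        rw [h5] at h4
        have h6 : ‖z‖ ^ 2 ≤ ‖z ^ d‖ := by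
          rw [norm_pow]
          exact pow_le_pow_right₀ (by linarith) hd
        have h7 : ‖z ^ d‖ ≤ ‖(g' (T^[k] x₁)).eval z‖ + ‖(g' (T^[k] x₁)).eval z - z ^ d‖ := by
          calc ‖z ^ d‖ = ‖(g' (T^[k] x₁)).eval z - ((g' (T^[k] x₁)).eval z - z ^ d)‖ := by
                congr 1; ring
            _ ≤ _ := norm_sub_le _ _
        nlinarith
    have hrun : ∀ k, k ≤ m → 3 / 2 * (5 / 4) ^ k ≤ ‖fib T g' (k + 1) x₁ c'‖ := by
      intro k
      induction k with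
      | zero =>
        intro _
        show 3 / 2 * (5 / 4) ^ 0 ≤ ‖(g' x₁).eval c'‖
        simpa using hv
      | succ k ih =>
        intro hk
        have h4 := ih (by omega)
        have h5 : (1 : ℝ) ≤ (5 / 4) ^ k := one_le_pow₀ (by norm_num)
        have h6 := hgrow (k + 1) (by omega) hk (fib T g' (k + 1) x₁ c') (by linarith)
        rw [fib_succ, pow_succ]
        linarith
    obtain ⟨k, hk⟩ := hG c' h2
    have hk' : ‖fib T g' k x₁ c'‖ < 1 / 2 := hk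
    rcases Nat.eq_zero_or_pos k with rfl | hkpos
    · have : ‖c'‖ < 1 / 2 := hk'
      linarith
    · rcases Nat.lt_or_ge m k with hmk | hmk
      · have h4 := hrun m le_rfl
        have h5 := fib_big (T := T) hR hesc (x := T^[m + 1] x₁) (z := fib T g' (m + 1) x₁ c')
          (by linarith) (k - (m + 1))
        rw [← fib_add] at h5
        have e : k - (m + 1) + (m + 1) = k := by omega
        rw [e] at h5
        have h6 : (1 : ℝ) ≤ 2 ^ (k - (m + 1)) := one_le_pow₀ (by norm_num)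
        nlinarith
      · have h4 := hrun (k - 1) (by omega)
        have e : k - 1 + 1 = k := by omega
        rw [e] at h4
        have h5 : (1 : ℝ) ≤ (5 / 4) ^ (k - 1) := one_le_pow₀ (by norm_num)
        linarith
  exact hx₁G (good_on hT hYc hY hmin hA hg' hBg hR hesc hD hr hl0 hl1 hyp hsY hs hx₀ hx₀G hx₁)

end Pool.Agent.Y334.FN
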