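import Mathlib
import Pool.Agent.Y334.FN.Ex

/-! Fibered polynomials: the main statements. -/

set_option autoImplicit false

open Filter Topology Metric Set Polynomial

namespace Pool.Agent.Y334.FN

open Pool.Agent.Y334.NA Pool.Agent.Y334.FP Pool.Agent.Y334.FS

theorem cont_of_lc {X Y : Type} [TopologicalSpace X] [TopologicalSpace Y] {f : X → Y} (hf : LC f) :
    Continuous f := by
  rw [continuous_iff_continuousAt]
  intro x
  exact continuousAt_const.congr (by filter_upwards [hf x] with y hy using hy.symm)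

/-- bounds over compact bases -/
theorem exists_bd {X : Type} [TopologicalSpace X] [CompactSpace X] {P : X → ℂ[X]}
    (hc : ∀ k, Continuous fun x => (P x).coeff k)
    (hlc : IsLocallyConstant fun x => (P x).natDegree) (h2 : ∀ x, 2 ≤ (P x).natDegree) :
    ∃ (d : ℕ) (A : ℝ), 1 ≤ A ∧ ∀ x, Bd d A (P x) := by
  by_cases hne : Nonempty X
  swap
  · have hX : IsEmpty X := not_nonempty_iff.1 hne
    exact ⟨2, 1, le_rfl, fun x => hX.elim x⟩
  obtain ⟨x₀⟩ := hne
  obtain ⟨d, hd⟩ : ∃ d : ℕ, ∀ x, (P x).natDegree ≤ d := by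
    obtain ⟨d, hd⟩ := hlc.range_finite.bddAbove
    exact ⟨d, fun x => hd (Set.mem_range_self x)⟩
  obtain ⟨A, hA0, hA⟩ : ∃ A : ℝ, 0 ≤ A ∧ ∀ x k, ‖(P x).coeff k‖ ≤ A := by
    have h1 : ∀ k : ℕ, ∃ a : ℝ, 0 ≤ a ∧ ∀ x, ‖(P x).coeff k‖ ≤ a := by
      intro k
      obtain ⟨a, ha⟩ := isCompact_univ.exists_bound_of_continuousOn (hc k).continuousOn
      exact ⟨a, (norm_nonneg _).trans (ha x₀ (mem_univ _)), fun x => ha x (mem_univ _)⟩
    choose a ha0 ha using h1
    refine ⟨∑ k ∈ Finset.range (d + 1), a k, Finset.sum_nonneg fun i _ => ha0 i, fun x k => ?_⟩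
    by_cases hk : k < d + 1
    · exact (ha k x).trans (Finset.single_le_sum (f := a) (fun i _ => ha0 i)
        (Finset.mem_range.2 hk))
    · rw [coeff_eq_zero_of_natDegree_lt (by have := hd x; omega), norm_zero]
      exact Finset.sum_nonneg fun i _ => ha0 i
  -- the leading coefficient
  have hlead : Continuous fun x => ‖(P x).leadingCoeff‖ := by
    rw [continuous_iff_continuousAt]
    intro x
    have h1 : ContinuousAt (fun y => ‖(P y).coeff (P x).natDegree‖) x :=
      (hc _).norm.continuousAt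
    refine h1.congr ?_
    have h3 : ∀ᶠ y in 𝓝 x, (P y).natDegree = (P x).natDegree :=
      (IsLocallyConstant.iff_eventually_eq _).1 hlc x
    filter_upwards [h3] with y hy
    rw [leadingCoeff, hy]
  have hpos : ∀ x, 0 < ‖(P x).leadingCoeff‖ := by
    intro x
    rw [norm_pos_iff, Ne, leadingCoeff_eq_zero]
    intro h
    have := h2 x
    rw [h] at this
    simp at this
  obtain ⟨x₁, -, hx₁⟩ := isCompact_univ.exists_isMinOn (⟨x₀, mem_univ _⟩ : (univ : Set X).Nonempty)
    hlead.continuousOn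
  have hmin : ∀ x, ‖(P x₁).leadingCoeff‖ ≤ ‖(P x).leadingCoeff‖ := fun x => hx₁ (mem_univ x)
  set m : ℝ := ‖(P x₁).leadingCoeff‖ with hm
  have hm0 : 0 < m := hpos x₁
  have hA' : A ≤ A + 1 + 1 / m := by
    have : 0 < 1 / m := by positivity
    linarith
  refine ⟨d, A + 1 + 1 / m, ?_, fun x => ⟨h2 x, hd x, fun k => (hA x k).trans hA', ?_⟩⟩
  · have : 0 < 1 / m := by positivity
    linarith
  · refine le_trans ?_ (hmin x)
    have h4 : 1 / (A + 1 + 1 / m) ≤ 1 / (1 / m) := by
      apply one_div_le_one_div_of_le (by positivity)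
      linarith
    rwa [one_div_one_div] at h4

/-- **Density over aperiodic totally disconnected bases.** -/
theorem dens {X : Type} [TopologicalSpace X] [CompactSpace X] [T2Space X]
    [TotallyDisconnectedSpace X] (T : X ≃ₜ X) (hT : ∀ x : X, ∀ k : ℕ, 1 ≤ k → (⇑T)^[k] x ≠ x)
    {P : X → ℂ[X]} (hc : ∀ k, Continuous fun x => (P x).coeff k)
    (hlc : IsLocallyConstant fun x => (P x).natDegree) (h2 : ∀ x, 2 ≤ (P x).natDegree) {ε : ℝ}
    (hε : 0 < ε) : ∃ (s : X → ℂ) (r C lam : ℝ), LC s ∧ (∀ x, ‖s x‖ < ε) ∧ 0 < r ∧ 0 < lam ∧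
      lam < 1 ∧ HypP (⇑T) (fun x => P x + Polynomial.C (s x)) r C lam := by
  obtain ⟨d, A, hA, hB⟩ := exists_bd hc hlc h2
  obtain ⟨S, n, r, C, lam, hS, hn, hr, hC, hl0, hl1, hglue⟩ := glue d (ε := min ε 1) hA
    (lt_min hε one_pos) (min_le_right _ _)
  obtain ⟨M, Rd, hMk⟩ := exists_mk (T := T) hn fun x k hk _ => hT x k hk
  obtain ⟨s, h1, h3, h4⟩ := hglue X T M Rd hMk (selP_compact X) P hc hB
  exact ⟨s, r, C, lam, h1, fun x => (hS _ (h3 x)).trans_le (min_le_left _ _), hr, hl0, hl1,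
    hypP_of h4⟩

/-- minimal maps of infinite spaces have no periodic points -/
theorem aper_of_minimal {X : Type} [TopologicalSpace X] [T1Space X] [Infinite X] {T : X → X}
    (hmin : ∀ x : X, Dense (range fun k : ℕ => T^[k] x)) (x : X) (k : ℕ) (hk : 1 ≤ k) :
    T^[k] x ≠ x :=
  aper_on (Y := univ) (fun x _ => by rw [(hmin x).closure_eq]) Set.infinite_univ (mem_univ x) k hk

/-- **Minimal bases: density means totally disconnected.** -/
theorem minimal_iff {X : Type} [TopologicalSpace X] [CompactSpace X] [T2Space X] [Infinite X]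
    (T : X ≃ₜ X) (hmin : ∀ x : X, Dense (range fun k : ℕ => (⇑T)^[k] x)) {d : ℕ} (hd : 2 ≤ d) :
    (∀ g : X → ℂ[X], (∀ k, Continuous fun x => (g x).coeff k) → (∀ x, (g x).natDegree = d) →
      ∀ ε : ℝ, 0 < ε → ∃ g' : X → ℂ[X], (∀ k, Continuous fun x => (g' x).coeff k) ∧
        (∀ x, (g' x).natDegree = d) ∧ (∀ x j, ‖(g' x).coeff j - (g x).coeff j‖ < ε) ∧
        ∃ r C lam : ℝ, 0 < r ∧ 0 < lam ∧ lam < 1 ∧ HypP (⇑T) g' r C lam) ↔
      TotallyDisconnectedSpace X := by
  have hap := fun x k hk => aper_of_minimal hmin x k hk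
  constructor
  · intro h
    by_contra htd
    obtain ⟨g, δ, hδ, h1, h2, h3⟩ := robust T.continuous isClosed_univ (mapsTo_univ _ _)
      (fun x _ => by rw [(hmin x).closure_eq]) Set.infinite_univ
      (fun h' => htd ⟨h'⟩) hd
    obtain ⟨g', h4, h5, h6, r, C, lam, hr, hl0, hl1, h7⟩ := h g h1 h2 δ hδ
    exact h3 g' h4 h5 h6 r C lam hr hl0 hl1 h7
  · intro htd g hg hdeg ε hε
    obtain ⟨s, r, C, lam, h1, h2, hr, hl0, hl1, h3⟩ := dens T hap hg
      ((IsLocallyConstant.iff_eventually_eq _).2 fun x => Eventually.of_forall fun y => by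
        rw [hdeg, hdeg]) (fun x => by rw [hdeg]; exact hd) hε
    refine ⟨fun x => g x + Polynomial.C (s x), fun k => ?_, fun x => ?_, fun x j => ?_, r, C, lam,
      hr, hl0, hl1, h3⟩
    · simp only [coeff_add, coeff_C]
      by_cases hk : k = 0
      · simp only [hk, if_true]
        exact (hg 0).add (cont_of_lc h1)
      · simp only [hk, if_false, add_zero]
        exact hg k
    · rw [natDegree_add_C]
      exact hdeg x
    · rw [coeff_add, add_sub_cancel_left, coeff_C]
      split_ifs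
      · exact h2 x
      · rw [norm_zero]
        exact hε

end Pool.Agent.Y334.FN
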