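import Mathlib
import Pool.Agent.Y334.FN.Main

/-! Hyperbolicity of a fibered polynomial gives hyperbolic polynomials over the periodic points of
the base. -/

set_option autoImplicit false

open Filter Topology Metric Set Polynomial

namespace Pool.Agent.Y334.FN

open Pool.Agent.Y334.NA Pool.Agent.Y334.FP

/-- the composition `U (n - 1) ∘ ... ∘ U 0` -/
noncomputable def cmp (U : ℕ → ℂ[X]) : ℕ → ℂ[X]
  | 0 => X
  | n + 1 => (U n).comp (cmp U n)

theorem cmp_congr {U V : ℕ → ℂ[X]} {n : ℕ} (h : ∀ i < n, U i = V i) : cmp U n = cmp V n := by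
  induction n with
  | zero => rfl
  | succ n ih => rw [cmp, cmp, ih fun i hi => h i (by omega), h n (by omega)]

theorem cmp_deg (U : ℕ → ℂ[X]) (n : ℕ) :
    (cmp U n).natDegree = ∏ i ∈ Finset.range n, (U i).natDegree := by
  induction n with
  | zero => simp [cmp]
  | succ n ih => rw [cmp, natDegree_comp, ih, Finset.prod_range_succ, mul_comm]

theorem cmp_crit {U : ℕ → ℂ[X]} {n : ℕ} {c : ℂ} (h : (derivative (cmp U n)).eval c = 0) :
    ∃ j < n, (derivative (U j)).eval ((cmp U j).eval c) = 0 := by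
  induction n with
  | zero => simp [cmp] at h
  | succ n ih =>
    rw [cmp, derivative_comp, eval_mul, eval_comp, mul_eq_zero] at h
    rcases h with h | h
    · obtain ⟨j, h1, h2⟩ := ih h
      exact ⟨j, by omega, h2⟩
    · exact ⟨n, Nat.lt_succ_self n, h⟩

theorem cmp_fib {X : Type} (T : X → X) (g : X → ℂ[X]) (x : X) (n : ℕ) (z : ℂ) :
    (cmp (fun i => g (T^[i] x)) n).eval z = fib T g n x z := by
  induction n with
  | zero => simp [cmp, fib]
  | succ n ih => rw [cmp, eval_comp, ih, fib_succ]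

/-- **Periodic points.** -/
theorem hyp_of_per {X : Type} [TopologicalSpace X] {T : X → X} {g : X → ℂ[X]} {r C lam : ℝ}
    (hr : 0 < r) (hl0 : 0 < lam) (hl1 : lam < 1) (hyp : HypP T g r C lam)
    (h2 : ∀ x, 2 ≤ (g x).natDegree) {N : ℕ} (hN : 1 ≤ N) {x₀ : X} (hx₀ : T^[N] x₀ = x₀) :
    ∀ c : ℂ, (derivative (cmp (fun i => g (T^[i] x₀)) N)).eval c = 0 →
      NH.Esc (cmp (fun i => g (T^[i] x₀)) N) c ∨ NH.Att (cmp (fun i => g (T^[i] x₀)) N) c := by
  intro c hc
  set Fp : ℂ[X] := cmp (fun i => g (T^[i] x₀)) N with hFp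
  set F : ℂ → ℂ := fun w => Fp.eval w with hF
  have hFf : F = fib T g N x₀ := by
    funext z
    exact cmp_fib T g x₀ N z
  have hTk : ∀ k : ℕ, T^[k * N] x₀ = x₀ := by
    intro k
    induction k with
    | zero => rw [Nat.zero_mul]; rfl
    | succ k ih => rw [Nat.succ_mul, Function.iterate_add_apply, hx₀, ih]
  have hFk : ∀ (k : ℕ) (z : ℂ), fib T g (k * N) x₀ z = F^[k] z := by
    intro k
    induction k with
    | zero => intro z; rw [Nat.zero_mul]; rfl
    | succ k ih =>
      intro z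
      rw [Nat.succ_mul, fib_add, hx₀, ih, Function.iterate_succ_apply, hFf]
  -- escape radius
  have hdeg : 2 ≤ Fp.natDegree := by
    rw [hFp, cmp_deg]
    obtain ⟨m, rfl⟩ : ∃ m, N = m + 1 := ⟨N - 1, by omega⟩
    rw [Finset.prod_range_succ]
    have h3 : 1 ≤ ∏ i ∈ Finset.range m, (g (T^[i] x₀)).natDegree :=
      Finset.one_le_prod' fun i _ => by have := h2 (T^[i] x₀); omega
    exact (h2 _).trans (Nat.le_mul_of_pos_left _ h3)
  obtain ⟨d, A, hA, hB⟩ := exists_bd (X := Unit) (P := fun _ => Fp)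
    (fun k => continuous_const) (IsLocallyConstant.const _) fun _ => hdeg
  obtain ⟨R, Λ, hR, -, hdat⟩ := dat_of_bounded d hA one_pos le_rfl
  have hesc : ∀ z : ℂ, R ≤ ‖z‖ → 2 * ‖z‖ ≤ ‖F z‖ := by
    intro z hz
    have h1 := (hdat (fun _ => Fp) (fun _ => hB ())).esc 0 z 0 hz (by simp)
    simpa using h1
  by_cases hbig : ∃ k, R ≤ ‖F^[k] c‖
  · left
    obtain ⟨k₀, hk₀⟩ := hbig
    have h3 : ∀ k : ℕ, 2 ^ k * R ≤ ‖F^[k] (F^[k₀] c)‖ := by
      intro k
      induction k with
      | zero => simpa using hk₀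
      | succ k ih =>
        rw [Function.iterate_succ_apply']
        have h1 : (1 : ℝ) ≤ 2 ^ k := one_le_pow₀ (by norm_num)
        have h4 : R ≤ ‖F^[k] (F^[k₀] c)‖ := by nlinarith
        have h5 := hesc _ h4
        rw [pow_succ]
        linarith
    have h4 : Tendsto (fun k : ℕ => ‖F^[k] (F^[k₀] c)‖) atTop atTop := by
      refine tendsto_atTop_mono (fun k => ?_) (tendsto_pow_atTop_atTop_of_one_lt
        (one_lt_two : (1 : ℝ) < 2))
      have h1 : (0 : ℝ) < 2 ^ k := by positivity
      have := h3 k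
      nlinarith
    show Tendsto (fun k : ℕ => ‖F^[k] c‖) atTop atTop
    rw [← tendsto_add_atTop_iff_nat k₀]
    refine h4.congr fun k => ?_
    rw [Function.iterate_add_apply]
  · right
    push Not at hbig
    -- the critical point of a factor
    obtain ⟨j, hj, hcj⟩ := cmp_crit hc
    have hPC : ∀ i : ℕ, (x₀, F^[i + 1] c) ∈ PCp T g := by
      intro i
      refine ⟨T^[j] x₀, fib T g j x₀ c, (i + 1) * N - j, ?_, ?_, ?_⟩
      · have : N ≤ (i + 1) * N := Nat.le_mul_of_pos_left _ (by omega)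
        omega
      · rw [← cmp_fib]
        exact hcj
      · have e : (i + 1) * N - j + j = (i + 1) * N := by
          have : N ≤ (i + 1) * N := Nat.le_mul_of_pos_left _ (by omega)
          omega
        rw [← Function.iterate_add_apply, ← fib_add, e, hTk, hFk]
    have hcon : ∀ i k : ℕ, ∀ z z' : ℂ, ‖z - F^[i + 1] c‖ < r → ‖z' - F^[i + 1] c‖ < r →
        ‖F^[k] z - F^[k] z'‖ ≤ C * lam ^ (k * N) * ‖z - z'‖ := by
      intro i k z z' hz hz'
      obtain ⟨W, hW, h3⟩ := hyp _ (subset_closure (hPC i))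
      rcases h3 x₀ (mem_of_mem_nhds hW) with h4 | ⟨k₀, -, h4⟩
      · have h5 := h4 (k * N) z z' hz hz'
        rw [hFk, hFk] at h5
        exact h5
      · exfalso
        obtain ⟨m, hm⟩ := pow_unbounded_of_one_lt R (one_lt_two)
        have h5 := h4 ((m + k₀) * N - k₀) (F^[i + 1] c) (by simpa using hr)
        have hle : m + k₀ ≤ (m + k₀) * N := Nat.le_mul_of_pos_right _ (by omega)
        have e : k₀ + ((m + k₀) * N - k₀) = (m + k₀) * N := by omega
        rw [e, hFk, ← Function.iterate_add_apply] at h5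
        have h6 := hbig (m + k₀ + (i + 1))
        have h7 : (2 : ℝ) ^ m ≤ 2 ^ ((m + k₀) * N - k₀) :=
          pow_le_pow_right₀ (by norm_num) (by omega)
        linarith
    obtain ⟨q, hq1, hq⟩ : ∃ q : ℕ, 1 ≤ q ∧ C * lam ^ (q * N) ≤ 1 / 4 := by
      have h3 : Tendsto (fun k : ℕ => C * lam ^ k) atTop (𝓝 (C * 0)) :=
        (tendsto_pow_atTop_nhds_zero_of_lt_one hl0.le hl1).const_mul C
      rw [mul_zero] at h3
      obtain ⟨q, hq⟩ := eventually_atTop.1 (h3.eventually (gt_mem_nhds
        (show (0 : ℝ) < 1 / 4 by norm_num)))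
      refine ⟨q + 1, by omega, (hq ((q + 1) * N) ?_).le⟩
      have : q + 1 ≤ (q + 1) * N := Nat.le_mul_of_pos_right _ (by omega)
      omega
    set B : Set ℂ := {z | ∃ i : ℕ, ‖z - F^[i + 1] c‖ < r / 2} with hBdef
    have hFd : Differentiable ℂ F := Fp.differentiable
    obtain ⟨n, hn, x, h3, h4, h5⟩ := NH.attracted (f := F^[q]) (hFd.iterate q) (B := B)
      (R := R + r) (η := r / 4) (by positivity) (by
        rintro z ⟨i, hz⟩
        have h6 := hbig (i + 1)
        calc ‖z‖ = ‖(z - F^[i + 1] c) + F^[i + 1] c‖ := by congr 1; ring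
          _ ≤ _ := norm_add_le _ _
          _ ≤ R + r := by linarith) (by
        rintro z ⟨i, hz⟩ w hw
        refine ⟨q + i, ?_⟩
        have h6 := hcon i q z (F^[i + 1] c) (by linarith) (by simpa using hr)
        have e : F^[q] (F^[i + 1] c) = F^[q + i + 1] c := by
          rw [← Function.iterate_add_apply]
          congr 1
        rw [e] at h6
        rw [mem_ball, dist_eq_norm] at hw
        have h7 : C * lam ^ (q * N) * ‖z - F^[i + 1] c‖ ≤ 1 / 4 * ‖z - F^[i + 1] c‖ :=
          mul_le_mul_of_nonneg_right hq (norm_nonneg _)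
        calc ‖w - F^[q + i + 1] c‖ = ‖(w - F^[q] z) + (F^[q] z - F^[q + i + 1] c)‖ := by
              congr 1; ring
          _ ≤ _ := norm_add_le _ _
          _ < r / 2 := by linarith) (z₀ := c) 1 (by
        refine ⟨q - 1, ?_⟩
        have e : q - 1 + 1 = q := by omega
        rw [Function.iterate_one, e, sub_self, norm_zero]
        positivity)
    refine ⟨q * n, Nat.mul_pos (by omega) hn, x, ?_, ?_, ?_⟩
    · rw [Function.iterate_mul]
      exact h3
    · have e : (fun w => Fp.eval w)^[q * n] = (F^[q])^[n] := Function.iterate_mul _ _ _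
      rw [e]
      exact h4
    · refine h5.congr fun k => ?_
      show (F^[q])^[n * k] c = F^[q * n * k] c
      rw [mul_assoc, Function.iterate_mul F q (n * k)]

end Pool.Agent.Y334.FN
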