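import Mathlib
import Pool.Agent.Y334.FN.Per

/-! Over the one-point base fibered hyperbolicity is hyperbolicity. -/

set_option autoImplicit false

open Filter Topology Metric Set Polynomial

namespace Pool.Agent.Y334.FN

open Pool.Agent.Y334.NA Pool.Agent.Y334.FP

/-- contraction of a disc at one time -/
def Cn (F : ℂ → ℂ) (r K lam : ℝ) (v : ℂ) (k : ℕ) : Prop :=
  ∀ z z', ‖z - v‖ < r → ‖z' - v‖ < r → ‖F^[k] z - F^[k] z'‖ ≤ K * lam ^ k * ‖z - z'‖

/-- contraction until escape -/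
def Dich (F : ℂ → ℂ) (r K lam : ℝ) (v : ℂ) : Prop :=
  (∀ k, Cn F r K lam v k) ∨ ∃ k₀, (∀ k < k₀, Cn F r K lam v k) ∧
    ∀ k z, ‖z - v‖ < r → 2 ^ k ≤ ‖F^[k₀ + k] z‖

theorem Cn.mono {F : ℂ → ℂ} {r K lam r' K' lam' : ℝ} {v : ℂ} {k : ℕ} (h : Cn F r K lam v k)
    (hr : r' ≤ r) (hK0 : 0 ≤ K) (hK : K ≤ K') (hl0 : 0 ≤ lam) (hl : lam ≤ lam') :
    Cn F r' K' lam' v k := by
  intro z z' hz hz'
  refine (h z z' (hz.trans_le hr) (hz'.trans_le hr)).trans ?_
  apply mul_le_mul_of_nonneg_right _ (norm_nonneg _)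
  have h1 : lam ^ k ≤ lam' ^ k := pow_le_pow_left₀ hl0 hl k
  have h2 : 0 ≤ lam ^ k := pow_nonneg hl0 k
  calc K * lam ^ k ≤ K' * lam ^ k := mul_le_mul_of_nonneg_right hK h2
    _ ≤ K' * lam' ^ k := mul_le_mul_of_nonneg_left h1 (hK0.trans hK)

theorem Dich.mono {F : ℂ → ℂ} {r K lam r' K' lam' : ℝ} {v : ℂ} (h : Dich F r K lam v)
    (hr : r' ≤ r) (hK0 : 0 ≤ K) (hK : K ≤ K') (hl0 : 0 ≤ lam) (hl : lam ≤ lam') :
    Dich F r' K' lam' v := by
  rcases h with h | ⟨k₀, h1, h2⟩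
  · exact Or.inl fun k => (h k).mono hr hK0 hK hl0 hl
  · exact Or.inr ⟨k₀, fun k hk => (h1 k hk).mono hr hK0 hK hl0 hl,
      fun k z hz => h2 k z (hz.trans_le hr)⟩

theorem lipc {f : ℂ → ℂ} (hf : Differentiable ℂ f) (v : ℂ) (ρ : ℝ) :
    ∃ L : ℝ, 0 ≤ L ∧ ∀ z z' : ℂ, ‖z - v‖ ≤ ρ → ‖z' - v‖ ≤ ρ → ‖f z - f z'‖ ≤ L * ‖z - z'‖ := by
  have hc : Continuous (deriv f) := (hf.contDiff (n := 1)).continuous_deriv le_rfl
  obtain ⟨L, hL⟩ := (isCompact_closedBall v ρ).exists_bound_of_continuousOn hc.continuousOn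
  refine ⟨max L 0, le_max_right _ _, fun z z' hz hz' => ?_⟩
  refine (convex_closedBall v ρ).norm_image_sub_le_of_norm_deriv_le (fun x _ => hf x)
    (fun x hx => (hL x hx).trans (le_max_left _ _)) ?_ ?_
  · rw [mem_closedBall, dist_eq_norm]; exact hz'
  · rw [mem_closedBall, dist_eq_norm]; exact hz

/-- the local statement -/
def Loc (F : ℂ → ℂ) (v : ℂ) : Prop :=
  ∃ r K lam : ℝ, 0 < r ∧ 0 ≤ K ∧ 0 < lam ∧ lam < 1 ∧ ∀ v', ‖v' - v‖ < r → Dich F r K lam v'

theorem pow_big {F : ℂ → ℂ} {R : ℝ} (hR : 1 ≤ R) (hesc : ∀ z, R ≤ ‖z‖ → 2 * ‖z‖ ≤ ‖F z‖) {z : ℂ}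
    (hz : R ≤ ‖z‖) (k : ℕ) : 2 ^ k * R ≤ ‖F^[k] z‖ := by
  induction k with
  | zero => simpa using hz
  | succ k ih =>
    rw [Function.iterate_succ_apply']
    have h1 : (1 : ℝ) ≤ 2 ^ k := one_le_pow₀ (by norm_num)
    have h4 : R ≤ ‖F^[k] z‖ := by nlinarith
    have h5 := hesc _ h4
    rw [pow_succ]
    linarith

theorem loc_esc {F : ℂ → ℂ} (hF : Differentiable ℂ F) {R : ℝ} (hR : 1 ≤ R)
    (hesc : ∀ z, R ≤ ‖z‖ → 2 * ‖z‖ ≤ ‖F z‖) {v : ℂ} {k₀ : ℕ} (hv : R < ‖F^[k₀] v‖) : Loc F v := by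
  have hop : IsOpen {z : ℂ | R < ‖F^[k₀] z‖} :=
    isOpen_lt continuous_const (hF.iterate k₀).continuous.norm
  obtain ⟨ρ, hρ, hρv⟩ := Metric.isOpen_iff.1 hop v hv
  choose L hL0 hL using fun k => lipc (hF.iterate k) v ρ
  refine ⟨ρ / 2, ∑ k ∈ Finset.range k₀, L k * 2 ^ k, 1 / 2, by positivity,
    Finset.sum_nonneg fun k _ => mul_nonneg (hL0 k) (by positivity), by norm_num, by norm_num,
    fun v' hv' => Or.inr ⟨k₀, fun k hk z z' hz hz' => ?_, fun k z hz => ?_⟩⟩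
  · have hb : ∀ w : ℂ, ‖w - v'‖ < ρ / 2 → ‖w - v‖ ≤ ρ := by
      intro w hw
      calc ‖w - v‖ = ‖(w - v') + (v' - v)‖ := by congr 1; ring
        _ ≤ _ := norm_add_le _ _
        _ ≤ ρ := by linarith
    refine (hL k z z' (hb z hz) (hb z' hz')).trans ?_
    apply mul_le_mul_of_nonneg_right _ (norm_nonneg _)
    have h1 : L k * 2 ^ k ≤ ∑ k ∈ Finset.range k₀, L k * 2 ^ k :=
      Finset.single_le_sum (f := fun k => L k * 2 ^ k)
        (fun k _ => mul_nonneg (hL0 k) (by positivity)) (Finset.mem_range.2 hk)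
    calc L k = L k * 2 ^ k * (1 / 2) ^ k := by
          rw [mul_assoc, ← mul_pow]
          norm_num
      _ ≤ _ := mul_le_mul_of_nonneg_right h1 (by positivity)
  · have hz' : z ∈ ball v ρ := by
      rw [mem_ball, dist_eq_norm]
      calc ‖z - v‖ = ‖(z - v') + (v' - v)‖ := by congr 1; ring
        _ ≤ _ := norm_add_le _ _
        _ < ρ := by linarith
    have h1 : R < ‖F^[k₀] z‖ := hρv hz'
    have h2 := pow_big hR hesc h1.le k
    rw [← Function.iterate_add_apply] at h2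
    rw [add_comm k₀ k]
    have h3 : (0 : ℝ) < 2 ^ k := by positivity
    nlinarith

theorem sink_nbhd {G : ℂ → ℂ} (hG : Differentiable ℂ G) {x : ℂ} (h1 : ‖deriv G x‖ < 1) :
    ∃ ρ μ : ℝ, 0 < ρ ∧ 0 < μ ∧ μ < 1 ∧ ∀ z z', ‖z - x‖ < ρ → ‖z' - x‖ < ρ →
      ‖G z - G z'‖ ≤ μ * ‖z - z'‖ := by
  have hc : Continuous (deriv G) := (hG.contDiff (n := 1)).continuous_deriv le_rfl
  set μ : ℝ := (1 + ‖deriv G x‖) / 2 with hμ
  have hμ1 : ‖deriv G x‖ < μ := by rw [hμ]; linarith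
  have hop : IsOpen {z : ℂ | ‖deriv G z‖ < μ} := isOpen_lt hc.norm continuous_const
  obtain ⟨ρ, hρ, hρx⟩ := Metric.isOpen_iff.1 hop x hμ1
  refine ⟨ρ, μ, hρ, by rw [hμ]; positivity, by rw [hμ]; linarith, fun z z' hz hz' => ?_⟩
  refine (convex_ball x ρ).norm_image_sub_le_of_norm_deriv_le (fun x _ => hG x)
    (fun x hx => (hρx hx).le) ?_ ?_
  · rw [mem_ball, dist_eq_norm]; exact hz'
  · rw [mem_ball, dist_eq_norm]; exact hz

theorem loc_att {F : ℂ → ℂ} (hF : Differentiable ℂ F) {n : ℕ} (hn : 0 < n) {x : ℂ}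
    (hx : F^[n] x = x) {ρ μ : ℝ} (hρ : 0 < ρ) (hμ0 : 0 < μ) (hμ1 : μ < 1)
    (hG : ∀ z z', ‖z - x‖ < ρ → ‖z' - x‖ < ρ → ‖F^[n] z - F^[n] z'‖ ≤ μ * ‖z - z'‖) {v : ℂ}
    {m : ℕ} (hm : ‖F^[m] v - x‖ < ρ) : Loc F v := by
  have hop : IsOpen {z : ℂ | ‖F^[m] z - x‖ < ρ} :=
    isOpen_lt ((hF.iterate m).continuous.sub continuous_const).norm continuous_const
  obtain ⟨σ, hσ, hσv⟩ := Metric.isOpen_iff.1 hop v hm
  choose L hL0 hL using fun k => lipc (hF.iterate k) v σ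
  choose L' hL'0 hL' using fun k => lipc (hF.iterate k) x ρ
  have hn' : (1 : ℝ) ≤ n := by exact_mod_cast hn
  set lam : ℝ := 1 - (1 - μ) / n with hlam
  have h1 : (1 - μ) / n ≤ 1 - μ := div_le_self (by linarith) hn'
  have h2 : 0 < (1 - μ) / n := div_pos (by linarith) (by linarith)
  have hl0 : 0 < lam := by rw [hlam]; linarith
  have hl1 : lam < 1 := by rw [hlam]; linarith
  have hln : μ ≤ lam ^ n := by
    have h3 := one_add_mul_le_pow (a := -((1 - μ) / n)) (by linarith) n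
    have h4 : 1 + (n : ℝ) * -((1 - μ) / n) = μ := by field_simp; ring
    have h5 : 1 + -((1 - μ) / n) = lam := by rw [hlam]; ring
    rw [h4, h5] at h3
    exact h3
  -- iterates of the contraction
  have hit : ∀ q : ℕ, ∀ z z' : ℂ, ‖z - x‖ < ρ → ‖z' - x‖ < ρ →
      ‖(F^[n])^[q] z - x‖ < ρ ∧ ‖(F^[n])^[q] z' - x‖ < ρ ∧
        ‖(F^[n])^[q] z - (F^[n])^[q] z'‖ ≤ μ ^ q * ‖z - z'‖ := by
    intro q z z' hz hz'
    induction q with
    | zero => exact ⟨hz, hz', by simp⟩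
    | succ q ih =>
      obtain ⟨i1, i2, i3⟩ := ih
      have hstay : ∀ w : ℂ, ‖w - x‖ < ρ → ‖F^[n] w - x‖ < ρ := by
        intro w hw
        have h3 := hG w x hw (by simpa using hρ)
        rw [hx] at h3
        nlinarith [norm_nonneg (w - x)]
      rw [Function.iterate_succ_apply', Function.iterate_succ_apply']
      refine ⟨hstay _ i1, hstay _ i2, (hG _ _ i1 i2).trans ?_⟩
      rw [pow_succ]
      nlinarith
  set S₁ : ℝ := ∑ k ∈ Finset.range m, L k / lam ^ k with hS₁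
  set S₂ : ℝ := ∑ j ∈ Finset.range n, L' j with hS₂
  have hS₁0 : 0 ≤ S₁ := Finset.sum_nonneg fun k _ => div_nonneg (hL0 k) (by positivity)
  have hS₂0 : 0 ≤ S₂ := Finset.sum_nonneg fun k _ => hL'0 k
  have hK0 : 0 ≤ S₂ * L m / lam ^ (m + n) := div_nonneg (mul_nonneg hS₂0 (hL0 m)) (by positivity)
  refine ⟨σ / 2, S₁ + S₂ * L m / lam ^ (m + n), lam, by positivity, by linarith, hl0, hl1,
    fun v' hv' => Or.inl fun k z z' hz hz' => ?_⟩
  have hb : ∀ w : ℂ, ‖w - v'‖ < σ / 2 → ‖w - v‖ < σ := by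
    intro w hw
    calc ‖w - v‖ = ‖(w - v') + (v' - v)‖ := by congr 1; ring
      _ ≤ _ := norm_add_le _ _
      _ < σ := by linarith
  have hbz := hb z hz
  have hbz' := hb z' hz'
  rcases Nat.lt_or_ge k m with hk | hk
  · refine (hL k z z' hbz.le hbz'.le).trans ?_
    apply mul_le_mul_of_nonneg_right _ (norm_nonneg _)
    have h3 : L k / lam ^ k ≤ S₁ :=
      Finset.single_le_sum (f := fun k => L k / lam ^ k)
        (fun k _ => div_nonneg (hL0 k) (by positivity)) (Finset.mem_range.2 hk)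
    calc L k = L k / lam ^ k * lam ^ k := by field_simp
      _ ≤ (S₁ + S₂ * L m / lam ^ (m + n)) * lam ^ k := by
          apply mul_le_mul_of_nonneg_right _ (by positivity)
          linarith
  · obtain ⟨q, j, hj, hkq⟩ : ∃ q j, j < n ∧ k = j + (n * q + m) := by
      refine ⟨(k - m) / n, (k - m) % n, Nat.mod_lt _ hn, ?_⟩
      have := Nat.mod_add_div (k - m) n
      omega
    have hz1 : ‖F^[m] z - x‖ < ρ := hσv (by rw [mem_ball, dist_eq_norm]; exact hbz)
    have hz1' : ‖F^[m] z' - x‖ < ρ := hσv (by rw [mem_ball, dist_eq_norm]; exact hbz')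
    obtain ⟨i1, i2, i3⟩ := hit q _ _ hz1 hz1'
    have hk1 : ∀ w : ℂ, F^[k] w = F^[j] ((F^[n])^[q] (F^[m] w)) := by
      intro w
      rw [hkq, Function.iterate_add_apply, Function.iterate_add_apply, Function.iterate_mul]
    rw [hk1, hk1]
    have h3 := hL' j _ _ i1.le i2.le
    have h4 := hL m z z' hbz.le hbz'.le
    have h5 : L' j ≤ S₂ := Finset.single_le_sum (f := L') (fun k _ => hL'0 k)
      (Finset.mem_range.2 hj)
    have h6 : μ ^ q ≤ lam ^ k / lam ^ (m + n) := by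
      rw [le_div_iff₀ (by positivity)]
      calc μ ^ q * lam ^ (m + n) ≤ (lam ^ n) ^ q * lam ^ (m + n) := by gcongr
        _ = lam ^ (n * q + (m + n)) := by rw [← pow_mul, ← pow_add]
        _ ≤ lam ^ k := pow_le_pow_of_le_one hl0.le hl1.le (by omega)
    calc ‖F^[j] ((F^[n])^[q] (F^[m] z)) - F^[j] ((F^[n])^[q] (F^[m] z'))‖
        ≤ L' j * ‖(F^[n])^[q] (F^[m] z) - (F^[n])^[q] (F^[m] z')‖ := h3
      _ ≤ S₂ * (μ ^ q * (L m * ‖z - z'‖)) := by
          have h7 : ‖(F^[n])^[q] (F^[m] z) - (F^[n])^[q] (F^[m] z')‖ ≤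
              μ ^ q * (L m * ‖z - z'‖) := i3.trans (by gcongr)
          exact mul_le_mul h5 h7 (norm_nonneg _) hS₂0
      _ ≤ S₂ * (lam ^ k / lam ^ (m + n) * (L m * ‖z - z'‖)) := by
          have := hL0 m
          gcongr
      _ = S₂ * L m / lam ^ (m + n) * lam ^ k * ‖z - z'‖ := by field_simp
      _ ≤ (S₁ + S₂ * L m / lam ^ (m + n)) * lam ^ k * ‖z - z'‖ := by
          gcongr
          linarith

/-- **Hyperbolic polynomials are fiber hyperbolic.** -/
theorem hyp_pt {P : ℂ[X]} (hP : 2 ≤ P.natDegree)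
    (h : ∀ c : ℂ, (derivative P).eval c = 0 → NH.Esc P c ∨ NH.Att P c) :
    ∃ r C lam : ℝ, 0 < r ∧ 0 < lam ∧ lam < 1 ∧
      HypP (id : Unit → Unit) (fun _ => P) r C lam := by
  classical
  set F : ℂ → ℂ := fun w => P.eval w with hF
  have hFd : Differentiable ℂ F := P.differentiable
  have hD0 : derivative P ≠ 0 := by
    intro h'
    have := derivative_eq_zero.1 h'
    omega
  obtain ⟨d, A, hA, hB⟩ := exists_bd (X := Unit) (P := fun _ => P)
    (fun k => continuous_const) (IsLocallyConstant.const _) fun _ => hP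
  obtain ⟨R, Λ, hR, -, hdat⟩ := dat_of_bounded d hA one_pos le_rfl
  have hesc : ∀ z : ℂ, R ≤ ‖z‖ → 2 * ‖z‖ ≤ ‖F z‖ := by
    intro z hz
    have h1 := (hdat (fun _ => P) (fun _ => hB ())).esc 0 z 0 hz (by simp)
    simpa using h1
  -- the orbits
  set O : ℂ → Set ℂ := fun c => {w | ∃ k, 1 ≤ k ∧ w = F^[k] c} with hO
  have hloc : ∀ c : ℂ, (derivative P).eval c = 0 → ∀ v ∈ closure (O c), Loc F v := by
    intro c hc v hv
    rcases h c hc with hE | ⟨n, hn, x, hx1, hx2, hx3⟩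
    · -- escape
      have hE' : Tendsto (fun k : ℕ => ‖F^[k] c‖) atTop atTop := hE
      obtain ⟨N, hN⟩ := eventually_atTop.1 (hE'.eventually_ge_atTop (‖v‖ + 1))
      have hsub : O c ⊆ ((fun k => F^[k] c) '' (Finset.range N : Set ℕ)) ∪ {w | ‖v‖ + 1 ≤ ‖w‖} := by
        rintro w ⟨k, -, rfl⟩
        rcases Nat.lt_or_ge k N with hk | hk
        · exact Or.inl ⟨k, Finset.mem_coe.2 (Finset.mem_range.2 hk), rfl⟩
        · exact Or.inr (hN k hk)
      have hcl : IsClosed (((fun k => F^[k] c) '' (Finset.range N : Set ℕ)) ∪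
          {w | ‖v‖ + 1 ≤ ‖w‖}) :=
        (((Finset.finite_toSet _).image _).isClosed).union
          (isClosed_le continuous_const continuous_norm)
      rcases (hcl.closure_subset_iff.2 hsub) hv with ⟨k, -, rfl⟩ | h1
      · obtain ⟨k₀, hk₀⟩ := (hE'.eventually_gt_atTop R).exists_forall_of_atTop
        have h2 := hk₀ (k₀ + k) (by omega)
        rw [Function.iterate_add_apply] at h2
        exact loc_esc hFd hR hesc h2
      · have h1' : ‖v‖ + 1 ≤ ‖v‖ := h1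
        linarith
    · -- attraction
      have hx1' : F^[n] x = x := hx1
      have hx3' : Tendsto (fun k : ℕ => F^[n * k] c) atTop (𝓝 x) := hx3
      obtain ⟨ρ, μ, hρ, hμ0, hμ1, hG⟩ := sink_nbhd (hFd.iterate n) hx2
      have hj : ∀ j : ℕ, Tendsto (fun k : ℕ => F^[j] (F^[n * k] c)) atTop (𝓝 (F^[j] x)) :=
        fun j => ((hFd.iterate j).continuous.tendsto x).comp hx3'
      have hsub : O c ⊆ ⋃ j ∈ Finset.range n, insert (F^[j] x)
          (range fun k : ℕ => F^[j] (F^[n * k] c)) := by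
        rintro w ⟨k, -, rfl⟩
        rw [mem_iUnion₂]
        refine ⟨k % n, Finset.mem_range.2 (Nat.mod_lt _ hn), Or.inr ⟨k / n, ?_⟩⟩
        show F^[k % n] (F^[n * (k / n)] c) = F^[k] c
        rw [← Function.iterate_add_apply, Nat.mod_add_div]
      have hcl : IsClosed (⋃ j ∈ Finset.range n, insert (F^[j] x)
          (range fun k : ℕ => F^[j] (F^[n * k] c))) :=
        isClosed_biUnion_finset fun j _ => (hj j).isCompact_insert_range.isClosed
      obtain ⟨j, hjn, h1⟩ := mem_iUnion₂.1 ((hcl.closure_subset_iff.2 hsub) hv)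
      have hjn' := Finset.mem_range.1 hjn
      rcases h1 with h1 | ⟨k, h1⟩
      · refine loc_att hFd hn hx1' hρ hμ0 hμ1 hG (m := n - j) ?_
        rw [h1, ← Function.iterate_add_apply]
        have e : n - j + j = n := by omega
        rw [e, hx1', sub_self, norm_zero]
        exact hρ
      · obtain ⟨N, hN⟩ := Metric.tendsto_atTop.1 hx3' ρ hρ
        refine loc_att hFd hn hx1' hρ hμ0 hμ1 hG (m := n * (N + k + 1) - (j + n * k)) ?_
        have h2 := hN (N + k + 1) (by omega)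
        rw [dist_eq_norm] at h2
        have h1' : F^[j] (F^[n * k] c) = v := h1
        rw [← h1', ← Function.iterate_add_apply, ← Function.iterate_add_apply]
        have e : n * (N + k + 1) - (j + n * k) + j + n * k = n * (N + k + 1) := by
          have : j + n * k ≤ n * (N + k + 1) := by nlinarith
          omega
        rw [e]
        exact h2
  -- all the points
  set PC₂ : Set ℂ := {w | ∃ c k, 1 ≤ k ∧ (derivative P).eval c = 0 ∧ w = F^[k] c} with hPC₂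
  have hPCeq : PC₂ = ⋃ c ∈ (derivative P).roots.toFinset, O c := by
    ext w
    simp only [mem_iUnion, exists_prop]
    constructor
    · rintro ⟨c, k, h1, h2, h3⟩
      exact ⟨c, Multiset.mem_toFinset.2 ((mem_roots hD0).2 h2), k, h1, h3⟩
    · rintro ⟨c, h1, k, h2, h3⟩
      exact ⟨c, k, h2, (mem_roots hD0).1 (Multiset.mem_toFinset.1 h1), h3⟩
  have hall : ∀ v ∈ closure PC₂, Loc F v := by
    intro v hv
    rw [hPCeq, Finset.closure_biUnion] at hv
    obtain ⟨c, hc, h1⟩ := mem_iUnion₂.1 hv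
    exact hloc c ((mem_roots hD0).1 (Multiset.mem_toFinset.1 hc)) v h1
  have hcpt : IsCompact (closure PC₂ ∩ closedBall 0 (R + 1)) :=
    (isCompact_closedBall _ _).inter_left isClosed_closure
  obtain ⟨r, K, lam, hr, hK, hl0, hl1, hd⟩ : ∃ r K lam : ℝ, 0 < r ∧ 0 ≤ K ∧ 0 < lam ∧ lam < 1 ∧
      ∀ v ∈ closure PC₂ ∩ closedBall 0 (R + 1), Dich F r K lam v := by
    refine hcpt.induction_on (p := fun s => ∃ r K lam : ℝ, 0 < r ∧ 0 ≤ K ∧ 0 < lam ∧ lam < 1 ∧
      ∀ v ∈ s, Dich F r K lam v) ?_ ?_ ?_ ?_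
    · exact ⟨1, 0, 1 / 2, by norm_num, le_rfl, by norm_num, by norm_num, fun v hv => hv.elim⟩
    · rintro s t hst ⟨r, K, lam, h1, h2, h3, h4, h5⟩
      exact ⟨r, K, lam, h1, h2, h3, h4, fun v hv => h5 v (hst hv)⟩
    · rintro s t ⟨r, K, lam, h1, h2, h3, h4, h5⟩ ⟨r', K', lam', h1', h2', h3', h4', h5'⟩
      refine ⟨min r r', max K K', max lam lam', lt_min h1 h1', h2.trans (le_max_left _ _),
        h3.trans_le (le_max_left _ _), max_lt h4 h4', ?_⟩
      rintro v (hv | hv)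
      · exact (h5 v hv).mono (min_le_left _ _) h2 (le_max_left _ _) h3.le (le_max_left _ _)
      · exact (h5' v hv).mono (min_le_right _ _) h2' (le_max_right _ _) h3'.le (le_max_right _ _)
    · intro v hv
      obtain ⟨r, K, lam, h1, h2, h3, h4, h5⟩ := hall v hv.1
      exact ⟨ball v r, mem_nhdsWithin_of_mem_nhds (ball_mem_nhds v h1), r, K, lam, h1, h2, h3, h4,
        fun v' hv' => h5 v' (by rw [mem_ball, dist_eq_norm] at hv'; exact hv')⟩
  refine ⟨min r 1, K, lam, lt_min hr one_pos, hl0, hl1, ?_⟩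
  have hfib : ∀ (k : ℕ) (x : Unit) (z : ℂ),
      fib (id : Unit → Unit) (fun _ => P) k x z = F^[k] z := by
    intro k x z
    induction k with
    | zero => rfl
    | succ k ih => rw [fib_succ, ih, Function.iterate_succ_apply']
  intro p hp
  refine ⟨univ, univ_mem, fun x _ => ?_⟩
  simp only [Con, hfib]
  have hp2 : p.2 ∈ closure PC₂ := by
    have h1 := image_closure_subset_closure_image continuous_snd (mem_image_of_mem _ hp)
    refine closure_mono ?_ h1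
    rintro _ ⟨q, ⟨y, c, k, hk, hc, rfl⟩, rfl⟩
    exact ⟨c, k, hk, hc, hfib k y c⟩
  have hD : Dich F (min r 1) K lam p.2 := by
    rcases le_or_gt ‖p.2‖ (R + 1) with h1 | h1
    · exact (hd p.2 ⟨hp2, mem_closedBall_zero_iff.2 h1⟩).mono (min_le_left _ _) hK le_rfl hl0.le
        le_rfl
    · refine Or.inr ⟨0, fun k hk => absurd hk (Nat.not_lt_zero k), fun k z hz => ?_⟩
      have h2 : R ≤ ‖z‖ := by
        have h3 : ‖p.2‖ ≤ ‖z‖ + ‖z - p.2‖ := by
          calc ‖p.2‖ = ‖z - (z - p.2)‖ := by congr 1; ring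
            _ ≤ _ := norm_sub_le _ _
        have h4 := hz.trans_le (min_le_right _ _)
        linarith
      have h3 := pow_big hR hesc h2 k
      rw [zero_add]
      have h4 : (0 : ℝ) < 2 ^ k := by positivity
      nlinarith
  exact hD

end Pool.Agent.Y334.FN
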