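import Mathlib
import Pool.Agent.Y334.FN.Per

/-! Fibered polynomials: the uniform statement. -/

set_option autoImplicit false

open Filter Topology Metric Set Polynomial

namespace Pool.Agent.Y334.FN

open Pool.Agent.Y334.NA Pool.Agent.Y334.FP Pool.Agent.Y334.FS

section

variable {X Y : Type} {T : X → X} {U : Y → Y} {φ : Y → X}

theorem semi_iter (hsc : ∀ y, φ (U y) = T (φ y)) (k : ℕ) (y : Y) : φ (U^[k] y) = T^[k] (φ y) := by
  induction k with
  | zero => rfl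
  | succ k ih => rw [Function.iterate_succ_apply', Function.iterate_succ_apply', hsc, ih]

theorem fib_comap (hsc : ∀ y, φ (U y) = T (φ y)) (g : X → ℂ[X]) (k : ℕ) (y : Y) (z : ℂ) :
    fib U (fun y => g (φ y)) k y z = fib T g k (φ y) z := by
  induction k with
  | zero => rfl
  | succ k ih => rw [fib_succ, fib_succ, ih, semi_iter hsc]

theorem hypP_comap [TopologicalSpace X] [TopologicalSpace Y] (hφ : Continuous φ)
    (hsc : ∀ y, φ (U y) = T (φ y)) {g : X → ℂ[X]} {r C lam : ℝ} (h : HypP T g r C lam) :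
    HypP U (fun y => g (φ y)) r C lam := by
  intro p hp
  have hcont : Continuous fun q : Y × ℂ => (φ q.1, q.2) :=
    (hφ.comp continuous_fst).prodMk continuous_snd
  have hp' : (φ p.1, p.2) ∈ closure (PCp T g) := by
    have h3 := image_closure_subset_closure_image hcont (mem_image_of_mem _ hp)
    refine closure_mono ?_ h3
    rintro _ ⟨q, ⟨y, c, k, hk, hc, rfl⟩, rfl⟩
    refine ⟨φ y, c, k, hk, hc, ?_⟩
    simp only [semi_iter hsc, fib_comap hsc]
  obtain ⟨W, hW, h3⟩ := h _ hp'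
  refine ⟨φ ⁻¹' W, hφ.continuousAt.preimage_mem_nhds hW, fun x hx => ?_⟩
  have h4 := h3 _ hx
  simp only [Con, fib_comap hsc] at h4 ⊢
  exact h4

end

/-- **The uniform statement.** -/
theorem unif (d : ℕ) {A ε : ℝ} (hA : 1 ≤ A) (hε : 0 < ε) :
    ∃ (S : Finset ℂ) (n₀ : ℕ) (r C lam : ℝ), (∀ t ∈ S, ‖t‖ < ε) ∧ 0 < r ∧ 0 < C ∧ 0 < lam ∧
      lam < 1 ∧
      (∀ (X : Type) [TopologicalSpace X] [CompactSpace X] [T2Space X] [TotallyDisconnectedSpace X]
        (T : X ≃ₜ X), (∀ x : X, ∀ k : ℕ, 1 ≤ k → k < n₀ → (⇑T)^[k] x ≠ x) →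
        ∀ P : X → ℂ[X], (∀ k, Continuous fun x => (P x).coeff k) → (∀ x, Bd d A (P x)) →
        ∃ s : X → ℂ, LC s ∧ (∀ x, s x ∈ S) ∧
          HypP (⇑T) (fun x => P x + Polynomial.C (s x)) r C lam) ∧
      (∀ n : ℕ, n₀ ≤ n → ∀ P : ℕ → ℂ[X], (∀ i < n, Bd d A (P i)) →
        ∃ s : ℕ → ℂ, (∀ i < n, s i ∈ S) ∧
          (∀ c : ℂ, (derivative (cmp (fun i => P i + Polynomial.C (s i)) n)).eval c = 0 →
            NH.Esc (cmp (fun i => P i + Polynomial.C (s i)) n) c ∨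
              NH.Att (cmp (fun i => P i + Polynomial.C (s i)) n) c) ∧
          (cmp (fun i => P i + Polynomial.C (s i)) n).natDegree =
            ∏ i ∈ Finset.range n, (P i).natDegree) ∧
      (∀ P : ℤ → ℂ[X], (∀ i, Bd d A (P i)) → ∃ s : ℤ → ℂ, (∀ i, s i ∈ S) ∧
        HypP (fun i => i + 1) (fun i => P i + Polynomial.C (s i)) r C lam) ∧
      (∀ P : ℕ → ℂ[X], (∀ i, Bd d A (P i)) → ∃ s : ℕ → ℂ, (∀ i, s i ∈ S) ∧
        HypP (fun i => i + 1) (fun i => P i + Polynomial.C (s i)) r C lam) := by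
  obtain ⟨S, n, r, C, lam, hS, hn, hr, hC, hl0, hl1, hglue⟩ := glue d (ε := min ε 1) hA
    (lt_min hε one_pos) (min_le_right _ _)
  have hcpt : ∀ (X : Type) [TopologicalSpace X] [CompactSpace X] [T2Space X]
      [TotallyDisconnectedSpace X]
      (T : X ≃ₜ X), (∀ x : X, ∀ k : ℕ, 1 ≤ k → k < 2 * n → (⇑T)^[k] x ≠ x) →
      ∀ P : X → ℂ[X], (∀ k, Continuous fun x => (P x).coeff k) → (∀ x, Bd d A (P x)) →
      ∃ s : X → ℂ, LC s ∧ (∀ x, s x ∈ S) ∧
        HypP (⇑T) (fun x => P x + Polynomial.C (s x)) r C lam := by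
    intro X _ _ _ _ T hT P hc hB
    obtain ⟨M, Rd, hMk⟩ := exists_mk (T := T) hn hT
    obtain ⟨s, h1, h3, h4⟩ := hglue X T M Rd hMk (selP_compact X) P hc hB
    exact ⟨s, h1, h3, hypP_of h4⟩
  have hZ : ∀ P : ℤ → ℂ[X], (∀ i, Bd d A (P i)) → ∃ s : ℤ → ℂ, (∀ i, s i ∈ S) ∧
      HypP (fun i => i + 1) (fun i => P i + Polynomial.C (s i)) r C lam := by
    intro P hB
    obtain ⟨s, -, h3, h4⟩ := hglue ℤ trZ _ _ (mkZ hn) (selP_discrete ℤ) P
      (fun k => continuous_of_discreteTopology) hB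
    exact ⟨s, h3, hypP_of h4⟩
  refine ⟨S, 2 * n, r, C, lam, fun t ht => (hS t ht).trans_le (min_le_left _ _), hr, hC, hl0, hl1,
    hcpt, ?_, hZ, ?_⟩
  · intro N hN P hB
    obtain ⟨X, _, _, _, _, _, T, x₀, val, hT0, hval, hvalk, hper⟩ := cyc_base N (by omega)
    obtain ⟨s, -, h3, h4⟩ := hcpt X T (fun x k hk1 hk2 => hper x k hk1 (by omega))
      (fun x => P (val x)) (fun k => continuous_of_discreteTopology) fun x => hB _ (hval x)
    have h5 := hyp_of_per hr hl0 hl1 h4 (fun x => by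
      rw [natDegree_add_C]
      exact (hB _ (hval x)).1) (by omega : 1 ≤ N) hT0
    have h6 : cmp (fun i => P i + Polynomial.C (s ((⇑T)^[i] x₀))) N =
        cmp (fun i => P (val ((⇑T)^[i] x₀)) + Polynomial.C (s ((⇑T)^[i] x₀))) N := by
      apply cmp_congr
      intro i hi
      rw [hvalk i hi]
    refine ⟨fun i => s ((⇑T)^[i] x₀), fun i _ => h3 _, ?_, ?_⟩
    · intro c hc
      rw [h6] at hc ⊢
      exact h5 c hc
    · rw [cmp_deg]
      simp only [natDegree_add_C]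
  · intro P hB
    obtain ⟨s, h1, h2⟩ := hZ (fun i => P i.toNat) fun i => hB _
    refine ⟨fun i => s i, fun i => h1 _, ?_⟩
    have h3 := hypP_comap (U := fun i : ℕ => i + 1) (φ := fun i : ℕ => (i : ℤ))
      continuous_of_discreteTopology (fun y => by push_cast; rfl) h2
    simpa using h3

end Pool.Agent.Y334.FN
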